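import Pool.Agent.Helper4.UB.Algo

/-!
# The algorithm does not depend on the frame, and is an online algorithm
-/

set_option autoImplicit false

namespace Pool.Agent.Helper4.UB

open Pool.Agent.Helper2.OC

/-- change of orientation -/
def fl (δ : Bool) (S : St) : St := (S.1, xor S.2 δ)

theorem mrg_fl (r δ : Bool) (S S' : St) :
    mrg (xor r δ) (fl δ S) (fl δ S') = fl δ (mrg r S S') := by
  obtain ⟨a, b⟩ := S
  obtain ⟨a', b'⟩ := S'
  unfold mrg fl
  simp only
  by_cases h1 : a' < a
  · rw [if_pos h1, if_pos h1]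
  · rw [if_neg h1, if_neg h1]
    by_cases h2 : a < a'
    · rw [if_pos h2, if_pos h2]
    · rw [if_neg h2, if_neg h2]
      cases b <;> cases b' <;> cases δ <;> cases r <;> simp

theorem mrg_zero (r b : Bool) (S : St) (h : 1 ≤ S.1) : mrg r (0, b) S = S := by
  unfold mrg
  rw [if_neg (by simp), if_pos (by show 0 < S.1; omega)]

theorem foldS_pos {n : ℕ} (r : Om n → Bool) (l : List (Comp n)) (ω : Om n) (hl : l ≠ [])
    (h : ∀ c ∈ l, 1 ≤ (c.S ω).1) : 1 ≤ (foldS r l ω).1 := by
  cases l with
  | nil => exact absurd rfl hl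
  | cons c l =>
    exact le_trans (h c List.mem_cons_self) (le'_fst (le'_foldS r _ ω c List.mem_cons_self))

/-- `(c', ω')` is `(c, ω)` with the orientation changed by `δ`. -/
def RelFl {n : ℕ} (δ : Bool) (ω ω' : Om n) (c c' : Comp n) : Prop :=
  c'.S ω' = fl δ (c.S ω) ∧ 1 ≤ (c.S ω).1

theorem foldS_fl {n : ℕ} {r r' : Om n → Bool} {ω ω' : Om n} {δ : Bool}
    (hr : r' ω' = xor (r ω) δ) {l l' : List (Comp n)} (h : List.Forall₂ (RelFl δ ω ω') l l') :
    l ≠ [] → foldS r' l' ω' = fl δ (foldS r l ω) := by
  induction h with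
  | nil => intro h; exact absurd rfl h
  | @cons c c' l l' hc hl ih =>
    intro _
    have e1 : foldS r' (c' :: l') ω' = mrg (r' ω') (foldS r' l' ω') (c'.S ω') := rfl
    have e2 : foldS r (c :: l) ω = mrg (r ω) (foldS r l ω) (c.S ω) := rfl
    rw [e1, e2]
    cases hl with
    | nil =>
      have e3 : foldS r' [] ω' = (0, true) := rfl
      have e4 : foldS r [] ω = (0, true) := rfl
      rw [e3, e4, mrg_zero _ _ _ hc.2, mrg_zero _ _ _ (by rw [hc.1]; exact hc.2), hc.1]
    | cons h1 h2 =>
      rw [ih (by simp), hc.1, hr, mrg_fl]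

theorem newS_fl {n : ℕ} {r r' : Om n → Bool} {ω ω' : Om n} {δ : Bool}
    (hr : r' ω' = xor (r ω) δ) {l l' : List (Comp n)} (h : List.Forall₂ (RelFl δ ω ω') l l') :
    newS r' l' ω' = fl δ (newS r l ω) := by
  by_cases hl : l = []
  · subst hl
    cases h
    unfold newS foldS
    simp only [if_true]
    unfold fl
    rw [hr]
  · have h1 := foldS_fl hr h hl
    have h2 : 1 ≤ (foldS r l ω).1 := by
      refine foldS_pos r l ω hl ?_
      clear h1 hl
      induction h with
      | nil => intro c hc; simp at hc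
      | cons hc _ ih =>
        intro a ha
        rw [List.mem_cons] at ha
        rcases ha with rfl | ha
        · exact hc.2
        · exact ih a ha
    unfold newS
    rw [h1, if_neg (show ¬ ((foldS r l ω).1 = 0) by omega),
      if_neg (show ¬ ((fl δ (foldS r l ω)).1 = 0) by unfold fl; show ¬ ((foldS r l ω).1 = 0); omega)]

/-- properness below `T` -/
def Prp {n : ℕ} (G : SimpleGraph (Fin n)) (T : ℕ) (g : Fin n → Bool) : Prop :=
  ∀ i j : Fin n, i.1 < T → j.1 < T → G.Adj i j → g i ≠ g j

/-- Two components related by a change of frame. -/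
def RelG {n : ℕ} (g g' : Fin n → Bool) (c c' : Comp n) : Prop :=
  c'.X = c.X ∧ ∃ δ : Bool, (∀ i ∈ c.X, xor (g i) (g' i) = δ) ∧ ∀ ω, RelFl δ ω ω c c'

theorem forall₂_filter {α β : Type*} {R : α → β → Prop} {p : α → Bool} {q : β → Bool}
    {l : List α} {l' : List β} (h : List.Forall₂ R l l') (hpq : ∀ a b, R a b → p a = q b) :
    List.Forall₂ R (l.filter p) (l'.filter q) := by
  induction h with
  | nil => exact List.Forall₂.nil
  | @cons a b l l' hab _ ih =>
    rw [List.filter_cons, List.filter_cons, ← hpq a b hab]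
    split_ifs
    · exact List.Forall₂.cons hab ih
    · exact ih

theorem tch_congr {n : ℕ} {G : SimpleGraph (Fin n)} {v : Fin n} {c c' : Comp n}
    (h : c'.X = c.X) : tch G v c = tch G v c' := by
  rw [Bool.eq_iff_iff, tch_iff, tch_iff, h]

theorem unX_congr {n : ℕ} {R : Comp n → Comp n → Prop} (hR : ∀ c c', R c c' → c'.X = c.X)
    {l l' : List (Comp n)} (h : List.Forall₂ R l l') : unX l' = unX l := by
  induction h with
  | nil => rfl
  | @cons a b l l' hab _ ih => rw [unX, unX, ih, hR _ _ hab]

theorem forall₂_ex {α β : Type*} {R : α → β → Prop} {l : List α} {l' : List β}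
    (h : List.Forall₂ R l l') : ∀ c ∈ l, ∃ c', R c c' := by
  induction h with
  | nil => intro c hc; simp at hc
  | @cons a b l l' hab _ ih =>
    intro c hc
    rw [List.mem_cons] at hc
    rcases hc with rfl | hc
    · exact ⟨b, hab⟩
    · exact ih c hc

/-- The new components at `v` in the two frames are related. -/
theorem newC_rel {n : ℕ} (G : SimpleGraph (Fin n)) (g g' : Fin n → Bool) (v : Fin n)
    (hg : Prp G (v.1 + 1) g) (hg' : Prp G (v.1 + 1) g') {cs cs' : List (Comp n)}
    (h : List.Forall₂ (RelG g g') cs cs') (hlt : ∀ c ∈ cs, ∀ i ∈ c.X, i.1 < v.1)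
    :
    RelG g g' (newC G g v cs) (newC G g' v cs') := by
  have hf : List.Forall₂ (RelG g g') (cs.filter (tch G v)) (cs'.filter (tch G v)) :=
    forall₂_filter h (fun a b hab => tch_congr hab.1)
  have hun : unX (cs'.filter (tch G v)) = unX (cs.filter (tch G v)) :=
    unX_congr (fun c c' h => h.1) hf
  set δ := xor (g v) (g' v) with hδ
  have hw : ∀ w : Fin n, w.1 < v.1 → G.Adj w v → xor (g w) (g' w) = δ := by
    intro w hw hadj
    have h1 := hg w v (by omega) (by omega) hadj
    have h2 := hg' w v (by omega) (by omega) hadj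
    rw [hδ]
    revert h1 h2
    cases g w <;> cases g v <;> cases g' w <;> cases g' v <;> simp
  have hmem : ∀ c ∈ cs.filter (tch G v), ∀ c', RelG g g' c c' →
      (∀ i ∈ c.X, xor (g i) (g' i) = δ) ∧ ∀ ω, RelFl δ ω ω c c' := by
    intro c hc c' hcc
    rw [List.mem_filter, tch_iff] at hc
    obtain ⟨hc, w, hwc, hadj⟩ := hc
    obtain ⟨_, δ', h1, h2⟩ := hcc
    have h3 : δ' = δ := by
      rw [← h1 w hwc]
      exact hw w (hlt c hc w hwc) hadj
    subst h3
    exact ⟨h1, h2⟩
  refine ⟨?_, δ, ?_, ?_⟩
  · show insert v (unX (cs'.filter (tch G v))) = insert v (unX (cs.filter (tch G v)))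
    rw [hun]
  · intro i hi
    change i ∈ insert v (unX (cs.filter (tch G v))) at hi
    rw [Finset.mem_insert, mem_unX] at hi
    rcases hi with rfl | ⟨c, hc, hi⟩
    · rfl
    · have hc0 := hc
      -- the related component
      have : ∃ c', RelG g g' c c' := forall₂_ex hf c hc
      obtain ⟨c', hcc⟩ := this
      exact (hmem c hc0 c' hcc).1 i hi
  · intro ω
    refine ⟨?_, newS_pos _ _ _⟩
    show newS (rbit g' v) (cs'.filter (tch G v)) ω = fl δ (newS (rbit g v) (cs.filter (tch G v)) ω)
    refine newS_fl ?_ ?_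
    · unfold rbit
      rw [hδ]
      cases ω v <;> cases g v <;> cases g' v <;> rfl
    · clear hun
      have key : ∀ l l', List.Forall₂ (RelG g g') l l' → (∀ c ∈ l, ∀ c', RelG g g' c c' →
          (∀ i ∈ c.X, xor (g i) (g' i) = δ) ∧ ∀ ω, RelFl δ ω ω c c') →
          List.Forall₂ (RelFl δ ω ω) l l' := by
        intro l l' hl
        induction hl with
        | nil => intro _; exact List.Forall₂.nil
        | @cons a b l l' hab _ ih =>
          intro hm
          exact List.Forall₂.cons ((hm a List.mem_cons_self b hab).2 ω)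
            (ih (fun c hc => hm c (List.mem_cons_of_mem _ hc)))
      exact key _ _ hf hmem

theorem comps_rel {n : ℕ} (G : SimpleGraph (Fin n)) (g g' : Fin n → Bool) (T : ℕ)
    (hg : Prp G T g) (hg' : Prp G T g') (t : ℕ) (ht : t ≤ T) (htn : t ≤ n) :
    List.Forall₂ (RelG g g') (comps G g t) (comps G g' t) := by
  induction t with
  | zero => exact List.Forall₂.nil
  | succ t ih =>
    have htn' : t < n := by omega
    have ih := ih (by omega) (by omega)
    set v : Fin n := ⟨t, htn'⟩ with hv
    have hs : comps G g (t + 1) = step G g v (comps G g t) := comps_succ G g v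
    have hs' : comps G g' (t + 1) = step G g' v (comps G g' t) := comps_succ G g' v
    rw [hs, hs']
    have I := inv_comps G g t (by omega)
    refine List.Forall₂.cons ?_ ?_
    · refine newC_rel G g g' v ?_ ?_ ih I.lt
      · intro i j hi hj; exact hg i j (lt_of_lt_of_le hi ht) (lt_of_lt_of_le hj ht)
      · intro i j hi hj; exact hg' i j (lt_of_lt_of_le hi ht) (lt_of_lt_of_le hj ht)
    · exact forall₂_filter ih (fun a b hab => by rw [tch_congr hab.1])

theorem colG_frame {n : ℕ} (ω : Om n) (G : SimpleGraph (Fin n)) (g g' : Fin n → Bool) (v : Fin n)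
    (hg : Prp G (v.1 + 1) g) (hg' : Prp G (v.1 + 1) g') : colG ω G g' v = colG ω G g v := by
  have h1 := comps_rel G g g' (v.1 + 1) hg hg' v.1 (by omega) v.2.le
  have I := inv_comps G g v.1 v.2.le
  obtain ⟨hX, δ, h2, h3⟩ := newC_rel G g g' v hg hg' h1 I.lt
  have h4 : TT G g' v ω = fl δ (TT G g v ω) := (h3 ω).1
  have h5 : xor (g v) (g' v) = δ := by
    refine h2 v ?_
    show v ∈ insert v _
    exact Finset.mem_insert_self _ _
  unfold colG
  rw [h4, ← h5]
  unfold fl
  congr 2
  cases (TT G g v ω).2 <;> cases g v <;> cases g' v <;> rfl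

open Classical in
/-- The deterministic online algorithm with random bits `ω`. -/
noncomputable def alg {n : ℕ} (ω : Om n) : OnlineAlg n where
  colour G v := if h : ∃ g : Fin n → Bool, Prp G (v.1 + 1) g then colG ω G h.choose v else 0
  online := by
    intro G H v hGH
    have hA : Agree G H (v.1 + 1) := by
      intro i j hi hj
      exact hGH i j (Fin.le_def.mpr (by omega)) (Fin.le_def.mpr (by omega))
    have hP : Prp G (v.1 + 1) = Prp H (v.1 + 1) := by
      funext g
      unfold Prp
      refine propext (forall_congr' fun i => forall_congr' fun j => ?_)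
      refine forall_congr' fun hi => forall_congr' fun hj => ?_
      rw [hA i j hi hj]
    have key : ∀ g, colG ω G g v = colG ω H g v := by
      intro g
      unfold colG
      rw [TT_congr G H g v hA]
    have h2 : ∀ (P Q : (Fin n → Bool) → Prop) (hPQ : P = Q),
        (if h : ∃ g, P g then colG ω G h.choose v else 0) =
        (if h : ∃ g, Q g then colG ω H h.choose v else 0) := by
      intro P Q hPQ
      subst hPQ
      by_cases h : ∃ g, P g
      · rw [dif_pos h, dif_pos h, key]
      · rw [dif_neg h, dif_neg h]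
    exact h2 _ _ hP
  proper := by
    intro G hG i j hij
    obtain ⟨c⟩ := hG
    set g : Fin n → Bool := fun i => decide (c i = 0) with hgdef
    have hgp : ∀ i j, G.Adj i j → g i ≠ g j := by
      intro i j h
      have h1 := c.valid h
      rw [hgdef]
      simp only
      intro h2
      apply h1
      have h3 : ∀ x y : Fin 2, decide (x = 0) = decide (y = 0) → x = y := by decide
      exact h3 _ _ h2
    have hgT : ∀ T, Prp G T g := fun T i j _ _ h => hgp i j h
    have hcol : ∀ v : Fin n, (if h : ∃ g : Fin n → Bool, Prp G (v.1 + 1) g then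
        colG ω G h.choose v else 0) = colG ω G g v := by
      intro v
      have h : ∃ g : Fin n → Bool, Prp G (v.1 + 1) g := ⟨g, hgT _⟩
      rw [dif_pos h]
      exact colG_frame ω G g h.choose v (hgT _) h.choose_spec
    rw [hcol, hcol]
    rcases lt_trichotomy i j with h | h | h
    · exact colG_ne ω G g h hij (hgp i j hij)
    · subst h; exact absurd hij (G.loopless.irrefl i)
    · exact (colG_ne ω G g h hij.symm (hgp j i hij.symm)).symm

open Classical in
/-- On a bipartite graph with proper 2-colouring `g` the colour is `colG`. -/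
theorem alg_colour {n : ℕ} (ω : Om n) (G : SimpleGraph (Fin n)) (g : Fin n → Bool)
    (hg : ∀ i j, G.Adj i j → g i ≠ g j) (v : Fin n) : (alg ω).colour G v = colG ω G g v := by
  have hgT : ∀ T, Prp G T g := fun T i j _ _ h => hg i j h
  have h : ∃ g : Fin n → Bool, Prp G (v.1 + 1) g := ⟨g, hgT _⟩
  show (if h : ∃ g : Fin n → Bool, Prp G (v.1 + 1) g then colG ω G h.choose v else 0) = _
  rw [dif_pos h]
  exact colG_frame ω G g h.choose v (hgT _) h.choose_spec

theorem exists_frame {n : ℕ} (G : SimpleGraph (Fin n)) (hG : G.Colorable 2) :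
    ∃ g : Fin n → Bool, ∀ i j, G.Adj i j → g i ≠ g j := by
  obtain ⟨c⟩ := hG
  refine ⟨fun i => decide (c i = 0), ?_⟩
  intro i j h
  have h1 := c.valid h
  simp only
  intro h2
  apply h1
  have h3 : ∀ x y : Fin 2, decide (x = 0) = decide (y = 0) → x = y := by decide
  exact h3 _ _ h2

/-- The number of colours is at most twice the level of the fold of all final components. -/
theorem numColours_le {n : ℕ} (ω : Om n) (G : SimpleGraph (Fin n)) (g : Fin n → Bool)
    (hg : ∀ i j, G.Adj i j → g i ≠ g j) :
    (alg ω).numColours G ≤ 2 * (foldS (fun _ => true) (comps G g n) ω).1 := by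
  unfold OnlineAlg.numColours
  set m := (foldS (fun _ => true) (comps G g n) ω).1 with hm
  have I := inv_comps G g n le_rfl
  have hsub : Finset.univ.image ((alg ω).colour G) ⊆ Finset.Icc 2 (2 * m + 1) := by
    intro x hx
    rw [Finset.mem_image] at hx
    obtain ⟨v, _, rfl⟩ := hx
    rw [alg_colour ω G g hg v, Finset.mem_Icc]
    obtain ⟨c, hc, hv⟩ := I.cover v v.2
    have h1 := le'_fst (le'_trans (I.le c hc v hv ω) (le'_foldS (fun _ => true) _ ω c hc))
    have h2 : 1 ≤ (TT G g v ω).1 := newS_pos _ _ _
    have h3 := toNat_le_one (xor (TT G g v ω).2 (g v))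
    unfold colG
    constructor <;> omega
  refine (Finset.card_le_card hsub).trans ?_
  rw [Nat.card_Icc]
  omega

end Pool.Agent.Helper4.UB
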