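import Pool.Agent.Helper2.OC.Model

/-!
# The randomised Lovasz-Saks-Trotter algorithm

Every component of the graph revealed so far carries a level and an orientation.  We describe the
orientation relative to a fixed proper 2-colouring `g`.
-/

set_option autoImplicit false

namespace Pool.Agent.Helper4.UB

open Pool.Agent.Helper2.OC

/-- The random bits: one for each vertex. -/
abbrev Om (n : ℕ) := Fin n → Bool

/-- level and orientation -/
abbrev St := ℕ × Bool

/-- Merge of two states, `r` is the fresh orientation. -/
def mrg (r : Bool) (S S' : St) : St :=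
  if S'.1 < S.1 then S else if S.1 < S'.1 then S' else if S.2 = S'.2 then S else (S.1 + 1, r)

/-- A component: its vertex set and its random state. -/
structure Comp (n : ℕ) where
  X : Finset (Fin n)
  S : Om n → St

/-- Merge a list of components. -/
def foldS {n : ℕ} (r : Om n → Bool) : List (Comp n) → Om n → St
  | [], _ => (0, true)
  | c :: l, ω => mrg (r ω) (foldS r l ω) (c.S ω)

/-- State of the new component obtained by merging a list of components by a new vertex. -/
def newS {n : ℕ} (r : Om n → Bool) (l : List (Comp n)) (ω : Om n) : St :=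
  if (foldS r l ω).1 = 0 then (1, r ω) else foldS r l ω

/-- union of the vertex sets of a list of components -/
def unX {n : ℕ} : List (Comp n) → Finset (Fin n)
  | [] => ∅
  | c :: l => c.X ∪ unX l

open Classical in
/-- `c` has a neighbour of `v`. -/
noncomputable def tch {n : ℕ} (G : SimpleGraph (Fin n)) (v : Fin n) (c : Comp n) : Bool :=
  decide (∃ w ∈ c.X, G.Adj w v)

theorem tch_iff {n : ℕ} (G : SimpleGraph (Fin n)) (v : Fin n) (c : Comp n) :
    tch G v c = true ↔ ∃ w ∈ c.X, G.Adj w v := by
  unfold tch
  simp

/-- fresh bit of `v`, relative to `g` -/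
def rbit {n : ℕ} (g : Fin n → Bool) (v : Fin n) (ω : Om n) : Bool := xor (ω v) (g v)

/-- the new component at the arrival of `v` -/
noncomputable def newC {n : ℕ} (G : SimpleGraph (Fin n)) (g : Fin n → Bool) (v : Fin n)
    (cs : List (Comp n)) : Comp n :=
  ⟨insert v (unX (cs.filter (tch G v))), newS (rbit g v) (cs.filter (tch G v))⟩

/-- one step -/
noncomputable def step {n : ℕ} (G : SimpleGraph (Fin n)) (g : Fin n → Bool) (v : Fin n)
    (cs : List (Comp n)) : List (Comp n) :=
  newC G g v cs :: cs.filter (fun c => ! tch G v c)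

/-- the components after `t` arrivals -/
noncomputable def comps {n : ℕ} (G : SimpleGraph (Fin n)) (g : Fin n → Bool) : ℕ → List (Comp n)
  | 0 => []
  | t + 1 => if h : t < n then step G g ⟨t, h⟩ (comps G g t) else comps G g t

/-- the state of the component of `v` right after the arrival of `v` -/
noncomputable def TT {n : ℕ} (G : SimpleGraph (Fin n)) (g : Fin n → Bool) (v : Fin n) (ω : Om n) :
    St :=
  (newC G g v (comps G g v.1)).S ω

theorem comps_succ {n : ℕ} (G : SimpleGraph (Fin n)) (g : Fin n → Bool) (v : Fin n) :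
    comps G g (v.1 + 1) = step G g v (comps G g v.1) := by
  rw [comps, dif_pos v.2]

/-- order on states -/
def le' (S S' : St) : Prop := S.1 < S'.1 ∨ S = S'

theorem le'_refl (S : St) : le' S S := Or.inr rfl

theorem le'_trans {S S' S'' : St} (h : le' S S') (h' : le' S' S'') : le' S S'' := by
  unfold le' at *
  rcases h with h | h
  · rcases h' with h' | h'
    · exact Or.inl (lt_trans h h')
    · subst h'; exact Or.inl h
  · subst h; exact h'

theorem le'_mrg_left (r : Bool) (S S' : St) : le' S (mrg r S S') := by
  unfold le' mrg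
  split_ifs with h1 h2 h3
  · exact Or.inr rfl
  · exact Or.inl h2
  · exact Or.inr rfl
  · exact Or.inl (Nat.lt_succ_self _)

theorem le'_mrg_right (r : Bool) (S S' : St) : le' S' (mrg r S S') := by
  unfold le' mrg
  split_ifs with h1 h2 h3
  · exact Or.inl h1
  · exact Or.inr rfl
  · refine Or.inr (Prod.ext ?_ h3.symm)
    omega
  · refine Or.inl ?_
    show S'.1 < S.1 + 1
    omega

theorem le'_fst {S S' : St} (h : le' S S') : S.1 ≤ S'.1 := by
  rcases h with h | h
  · exact h.le
  · rw [h]

theorem le'_foldS {n : ℕ} (r : Om n → Bool) (l : List (Comp n)) (ω : Om n) :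
    ∀ c ∈ l, le' (c.S ω) (foldS r l ω) := by
  induction l with
  | nil => intro c hc; simp at hc
  | cons a l ih =>
    intro c hc
    rw [List.mem_cons] at hc
    rcases hc with rfl | hc
    · exact le'_mrg_right _ _ _
    · exact le'_trans (ih c hc) (le'_mrg_left _ _ _)

theorem le'_newS {n : ℕ} (r : Om n → Bool) (l : List (Comp n)) (ω : Om n) :
    ∀ c ∈ l, le' (c.S ω) (newS r l ω) := by
  intro c hc
  unfold newS
  split_ifs with h
  · have h1 := le'_fst (le'_foldS r l ω c hc)
    refine Or.inl ?_
    show (c.S ω).1 < 1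
    omega
  · exact le'_foldS r l ω c hc

theorem newS_pos {n : ℕ} (r : Om n → Bool) (l : List (Comp n)) (ω : Om n) :
    1 ≤ (newS r l ω).1 := by
  unfold newS
  split_ifs with h
  · exact le_rfl
  · omega

theorem mem_unX {n : ℕ} (l : List (Comp n)) (i : Fin n) :
    i ∈ unX l ↔ ∃ c ∈ l, i ∈ c.X := by
  induction l with
  | nil => simp [unX]
  | cons a l ih => simp [unX, ih]

/-- The structural invariants. -/
structure Inv {n : ℕ} (G : SimpleGraph (Fin n)) (g : Fin n → Bool) (t : ℕ)
    (cs : List (Comp n)) : Prop where
  lt : ∀ c ∈ cs, ∀ i ∈ c.X, i.1 < t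
  cover : ∀ i : Fin n, i.1 < t → ∃ c ∈ cs, i ∈ c.X
  disj : cs.Pairwise (fun c c' => Disjoint c.X c'.X)
  le : ∀ c ∈ cs, ∀ i ∈ c.X, ∀ ω, le' (TT G g i ω) (c.S ω)
  pos : ∀ c ∈ cs, ∀ ω, 1 ≤ (c.S ω).1
  ne : ∀ c ∈ cs, c.X.Nonempty

theorem inv_comps {n : ℕ} (G : SimpleGraph (Fin n)) (g : Fin n → Bool) (t : ℕ) (ht : t ≤ n) :
    Inv G g t (comps G g t) := by
  induction t with
  | zero =>
    exact ⟨by simp [comps], by simp, by simp [comps], by simp [comps], by simp [comps],
      by simp [comps]⟩
  | succ t ih =>
    have ih := ih (by omega)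
    have htn : t < n := by omega
    set v : Fin n := ⟨t, htn⟩ with hv
    have hs : comps G g (t + 1) = step G g v (comps G g t) := comps_succ G g v
    rw [hs]
    have hT : TT G g v = (newC G g v (comps G g t)).S := rfl
    refine ⟨?_, ?_, ?_, ?_, ?_, ?_⟩
    · intro c hc i hi
      rw [step, List.mem_cons] at hc
      rcases hc with rfl | hc
      · rw [newC, Finset.mem_insert, mem_unX] at hi
        rcases hi with rfl | ⟨c, hc, hi⟩
        · exact Nat.lt_succ_self _
        · have := ih.lt c (List.mem_filter.mp hc).1 i hi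
          omega
      · have := ih.lt c (List.mem_filter.mp hc).1 i hi
        omega
    · intro i hi
      rcases Nat.lt_succ_iff_lt_or_eq.mp hi with h | h
      · obtain ⟨c, hc, hic⟩ := ih.cover i h
        by_cases hcv : tch G v c = true
        · refine ⟨_, List.mem_cons_self, ?_⟩
          rw [newC, Finset.mem_insert, mem_unX]
          exact Or.inr ⟨c, List.mem_filter.mpr ⟨hc, hcv⟩, hic⟩
        · refine ⟨c, List.mem_cons_of_mem _ (List.mem_filter.mpr ⟨hc, by simpa using hcv⟩), hic⟩
      · refine ⟨_, List.mem_cons_self, ?_⟩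
        rw [newC, Finset.mem_insert]
        exact Or.inl (Fin.ext h)
    · rw [step, List.pairwise_cons]
      refine ⟨?_, ih.disj.filter _⟩
      intro c hc
      rw [List.mem_filter] at hc
      rw [newC, Finset.disjoint_insert_left]
      refine ⟨fun h => ?_, ?_⟩
      · have := ih.lt c hc.1 v h
        rw [hv] at this
        exact lt_irrefl _ this
      · rw [Finset.disjoint_left]
        intro i hi hi'
        rw [mem_unX] at hi
        obtain ⟨c', hc', hic'⟩ := hi
        rw [List.mem_filter] at hc'
        have hne : c' ≠ c := by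
          rintro rfl
          rw [hc'.2] at hc
          simp at hc
        haveI : Std.Symm (fun c c' : Comp n => Disjoint c.X c'.X) := ⟨fun _ _ h => h.symm⟩
        have hp := ih.disj.forall hc'.1 hc.1 hne
        exact Finset.disjoint_left.mp hp hic' hi'
    · intro c hc i hi ω
      rw [step, List.mem_cons] at hc
      rcases hc with rfl | hc
      · have hi0 := hi
        rw [newC, Finset.mem_insert, mem_unX] at hi
        rcases hi with rfl | ⟨c, hc, hi⟩
        · rw [hT]; exact le'_refl _
        · refine le'_trans (ih.le c (List.mem_filter.mp hc).1 i hi ω) ?_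
          exact le'_newS _ _ ω c hc
      · exact ih.le c (List.mem_filter.mp hc).1 i hi ω
    · intro c hc ω
      rw [step, List.mem_cons] at hc
      rcases hc with rfl | hc
      · exact newS_pos _ _ _
      · exact ih.pos c (List.mem_filter.mp hc).1 ω
    · intro c hc
      rw [step, List.mem_cons] at hc
      rcases hc with rfl | hc
      · exact ⟨v, Finset.mem_insert_self _ _⟩
      · exact ih.ne c (List.mem_filter.mp hc).1

/-- Adjacent vertices have comparable states. -/
theorem le'_adj {n : ℕ} (G : SimpleGraph (Fin n)) (g : Fin n → Bool) {w v : Fin n} (hwv : w < v)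
    (h : G.Adj w v) (ω : Om n) : le' (TT G g w ω) (TT G g v ω) := by
  have I := inv_comps G g v.1 v.2.le
  obtain ⟨c, hc, hw⟩ := I.cover w hwv
  refine le'_trans (I.le c hc w hw ω) ?_
  refine le'_newS _ _ ω c (List.mem_filter.mpr ⟨hc, ?_⟩)
  rw [tch_iff]
  exact ⟨w, hw, h⟩

/-- the colour in the frame of `g` -/
noncomputable def colG {n : ℕ} (ω : Om n) (G : SimpleGraph (Fin n)) (g : Fin n → Bool)
    (v : Fin n) : ℕ :=
  2 * (TT G g v ω).1 + (xor (TT G g v ω).2 (g v)).toNat

theorem toNat_le_one (b : Bool) : b.toNat ≤ 1 := by cases b <;> simp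

theorem colG_ne {n : ℕ} (ω : Om n) (G : SimpleGraph (Fin n)) (g : Fin n → Bool) {w v : Fin n}
    (hwv : w < v) (h : G.Adj w v) (hg : g w ≠ g v) : colG ω G g w ≠ colG ω G g v := by
  have h1 := le'_adj G g hwv h ω
  unfold colG
  have b1 := toNat_le_one (xor (TT G g w ω).2 (g w))
  have b2 := toNat_le_one (xor (TT G g v ω).2 (g v))
  rcases h1 with h1 | h1
  · omega
  · rw [h1]
    intro h2
    have h3 : (xor (TT G g v ω).2 (g w)).toNat = (xor (TT G g v ω).2 (g v)).toNat := by omega
    revert h3 hg
    cases (TT G g v ω).2 <;> cases g w <;> cases g v <;> simp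

/-! ### Locality -/

/-- `G` and `H` agree below `t`. -/
def Agree {n : ℕ} (G H : SimpleGraph (Fin n)) (t : ℕ) : Prop :=
  ∀ i j : Fin n, i.1 < t → j.1 < t → (G.Adj i j ↔ H.Adj i j)

theorem comps_congr {n : ℕ} (G H : SimpleGraph (Fin n)) (g : Fin n → Bool) (T : ℕ)
    (hA : Agree G H T) (t : ℕ) (ht : t ≤ T) (htn : t ≤ n) : comps G g t = comps H g t := by
  induction t with
  | zero => rfl
  | succ t ih =>
    have htn' : t < n := by omega
    have ih := ih (by omega) (by omega)
    set v : Fin n := ⟨t, htn'⟩ with hv
    have hs : comps G g (t + 1) = step G g v (comps G g t) := comps_succ G g v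
    have hs' : comps H g (t + 1) = step H g v (comps H g t) := comps_succ H g v
    rw [hs, hs', ← ih]
    have I := inv_comps G g t (by omega)
    have key : ∀ c ∈ comps G g t, tch G v c = tch H v c := by
      intro c hc
      rw [Bool.eq_iff_iff, tch_iff, tch_iff]
      refine exists_congr fun w => and_congr_right fun hw => ?_
      have h1 := I.lt c hc w hw
      exact hA w v (by omega) (by rw [hv]; show t < T; omega)
    have k1 : (comps G g t).filter (tch G v) = (comps G g t).filter (tch H v) :=
      List.filter_congr key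
    have k2 : (comps G g t).filter (fun c => ! tch G v c) =
        (comps G g t).filter (fun c => ! tch H v c) :=
      List.filter_congr (fun c hc => by rw [key c hc])
    unfold step newC
    rw [k1, k2]

theorem TT_congr {n : ℕ} (G H : SimpleGraph (Fin n)) (g : Fin n → Bool) (v : Fin n)
    (hA : Agree G H (v.1 + 1)) : TT G g v = TT H g v := by
  have h1 := comps_congr G H g (v.1 + 1) hA v.1 (by omega) v.2.le
  have I := inv_comps G g v.1 v.2.le
  have key : ∀ c ∈ comps G g v.1, tch G v c = tch H v c := by
    intro c hc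
    rw [Bool.eq_iff_iff, tch_iff, tch_iff]
    refine exists_congr fun w => and_congr_right fun hw => ?_
    have h1 := I.lt c hc w hw
    exact hA w v (by omega) (by omega)
  have k1 : (comps G g v.1).filter (tch G v) = (comps G g v.1).filter (tch H v) :=
    List.filter_congr key
  funext ω
  unfold TT newC
  rw [← h1, k1]

end Pool.Agent.Helper4.UB
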