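import Pool.Agent.Helper4.UB.Law

/-!
# The upper bound from a scalar certificate
-/

set_option autoImplicit false

namespace Pool.Agent.Helper4.UB

open Pool.Agent.Helper2.OC
open scoped ENNReal

theorem nat_eq_sum (m L : ℕ) (h : m ≤ L) :
    (m : ℝ) = ∑ k ∈ Finset.range L, (1 - if m ≤ k then (1 : ℝ) else 0) := by
  induction L with
  | zero =>
    have : m = 0 := by omega
    subst this
    simp
  | succ L ih =>
    rw [Finset.sum_range_succ]
    rcases Nat.lt_or_ge L m with h1 | h1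
    · have h2 : m = L + 1 := by omega
      subst h2
      have h3 : ∀ k ∈ Finset.range L, (1 - if L + 1 ≤ k then (1 : ℝ) else 0) = 1 := by
        intro k hk
        rw [Finset.mem_range] at hk
        rw [if_neg (by omega)]
        norm_num
      rw [Finset.sum_congr rfl h3, if_neg (by omega)]
      simp
    · rw [← ih h1, if_pos h1]
      norm_num

theorem ev_sum {n : ℕ} (L : ℕ) (f : ℕ → Om n → ℝ) :
    ev (fun ω => ∑ k ∈ Finset.range L, f k ω) = ∑ k ∈ Finset.range L, ev (f k) := by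
  unfold ev
  rw [Finset.sum_comm, Finset.sum_div]

/-- expected final level -/
theorem ev_level {n : ℕ} {β M : ℝ} {u : ℝ → ℝ} (C : Cert β M u) (G : SimpleGraph (Fin n))
    (g : Fin n → Bool) : ∃ L : ℕ,
    ev (fun ω => ((foldS (fun _ => true) (comps G g n) ω).1 : ℝ)) ≤
      ∑ k ∈ Finset.range L, (1 - u (arg β M n k)) := by
  set F : Om n → ℕ := fun ω => (foldS (fun _ => true) (comps G g n) ω).1 with hF
  refine ⟨Finset.univ.sup F, ?_⟩
  have h1 : ∀ ω, (F ω : ℝ) =
      ∑ k ∈ Finset.range (Finset.univ.sup F), (1 - if F ω ≤ k then (1 : ℝ) else 0) := fun ω =>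
    nat_eq_sum _ _ (Finset.le_sup (f := F) (Finset.mem_univ ω))
  have h2 : ev (fun ω => (F ω : ℝ)) =
      ∑ k ∈ Finset.range (Finset.univ.sup F), (1 - FF (foldS (fun _ => true) (comps G g n)) k) := by
    have : (fun ω => (F ω : ℝ)) = fun ω => ∑ k ∈ Finset.range (Finset.univ.sup F),
        (1 - if F ω ≤ k then (1 : ℝ) else 0) := funext h1
    rw [this, ev_sum]
    refine Finset.sum_congr rfl fun k _ => ?_
    rw [ev_sub, ev_const]
    rfl
  rw [h2]
  refine Finset.sum_le_sum fun k _ => ?_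
  have := final_law C G g k
  linarith

theorem sum_min_le {β Y : ℝ} (hβ : 1 < β) (hY : 0 ≤ Y) (K L : ℕ) (hK : Y ≤ β ^ K) :
    ∑ k ∈ Finset.range L, min 1 (Y / β ^ k) ≤ K + (1 - β⁻¹)⁻¹ := by
  have hβ0 : 0 < β := by linarith
  have hr0 : 0 ≤ β⁻¹ := by positivity
  have hr1 : β⁻¹ < 1 := inv_lt_one_of_one_lt₀ hβ
  have hnn : ∀ k, 0 ≤ min 1 (Y / β ^ k) := fun k => le_min zero_le_one (by positivity)
  calc ∑ k ∈ Finset.range L, min 1 (Y / β ^ k)
      ≤ ∑ k ∈ Finset.range (K + L), min 1 (Y / β ^ k) := by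
        refine Finset.sum_le_sum_of_subset_of_nonneg ?_ fun k _ _ => hnn k
        intro k hk
        rw [Finset.mem_range] at hk ⊢
        omega
    _ = ∑ k ∈ Finset.range K, min 1 (Y / β ^ k) +
        ∑ j ∈ Finset.range L, min 1 (Y / β ^ (K + j)) := Finset.sum_range_add _ _ _
    _ ≤ ∑ _k ∈ Finset.range K, (1 : ℝ) + ∑ j ∈ Finset.range L, β⁻¹ ^ j := by
        refine add_le_add (Finset.sum_le_sum fun k _ => min_le_left _ _) ?_
        refine Finset.sum_le_sum fun j _ => (min_le_right _ _).trans ?_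
        rw [pow_add, ← div_div, div_eq_mul_inv, inv_pow]
        have : Y / β ^ K ≤ 1 := by rw [div_le_one (by positivity)]; exact hK
        calc Y / β ^ K * (β ^ j)⁻¹ ≤ 1 * (β ^ j)⁻¹ := by gcongr
          _ = _ := one_mul _
    _ ≤ K + (1 - β⁻¹)⁻¹ := by
        rw [Finset.sum_const, Finset.card_range, nsmul_eq_mul, mul_one]
        refine add_le_add le_rfl ?_
        rw [← tsum_geometric_of_lt_one hr0 hr1]
        exact (summable_geometric_of_lt_one hr0 hr1).sum_le_tsum _ fun j _ => by positivity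

theorem one_sub_u_le {β M : ℝ} {u : ℝ → ℝ} (C : Cert β M u) (x : ℝ) (hx : 0 ≤ x) :
    1 - u x ≤ min 1 x := by
  rcases le_total x 1 with h | h
  · rw [min_eq_right h]
    have := C.lin x hx h
    linarith
  · rw [min_eq_left h]
    have := C.nonneg x hx
    linarith

theorem ev_level_le {n : ℕ} (hn : 1 ≤ n) {β M : ℝ} {u : ℝ → ℝ} (C : Cert β M u)
    (G : SimpleGraph (Fin n)) (g : Fin n → Bool) :
    ev (fun ω => ((foldS (fun _ => true) (comps G g n) ω).1 : ℝ)) ≤
      Real.log n / Real.log β + (Real.log M / Real.log β + 1 + (1 - β⁻¹)⁻¹) := by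
  obtain ⟨L, hL⟩ := ev_level C G g
  have hβ := C.beta
  have hM := C.Mpos
  have hn' : (1 : ℝ) ≤ n := by exact_mod_cast hn
  have hlogβ : 0 < Real.log β := Real.log_pos hβ
  have hY : 1 ≤ (n : ℝ) * M := by nlinarith
  set x := Real.log ((n : ℝ) * M) / Real.log β with hx
  have hx0 : 0 ≤ x := div_nonneg (Real.log_nonneg hY) hlogβ.le
  have hK : (n : ℝ) * M ≤ β ^ ⌈x⌉₊ := by
    rw [← Real.log_le_log_iff (by linarith) (by positivity), Real.log_pow]
    have := Nat.le_ceil x
    rw [hx, div_le_iff₀ hlogβ] at this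
    rw [hx]
    exact this
  have h1 := sum_min_le hβ (by linarith : (0 : ℝ) ≤ n * M) ⌈x⌉₊ L hK
  have h2 : ∑ k ∈ Finset.range L, (1 - u (arg β M n k)) ≤
      ∑ k ∈ Finset.range L, min 1 ((n : ℝ) * M / β ^ k) :=
    Finset.sum_le_sum fun k _ => one_sub_u_le C _ (arg_nonneg C n k)
  have h3 := Nat.ceil_lt_add_one hx0
  have h4 : x = Real.log n / Real.log β + Real.log M / Real.log β := by
    rw [hx, Real.log_mul (by positivity) (by positivity), add_div]
  linarith

theorem expColours_map {n : ℕ} {Ω : Type} [Fintype Ω] [Nonempty Ω] (a : Ω → OnlineAlg n)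
    (G : SimpleGraph (Fin n)) :
    expColours ((PMF.uniformOfFintype Ω).map a) G =
      ∑ ω, (Fintype.card Ω : ℝ≥0∞)⁻¹ * ((a ω).numColours G : ℝ≥0∞) := by
  classical
  unfold expColours
  have h1 : ∀ A : OnlineAlg n, ((PMF.uniformOfFintype Ω).map a) A * (A.numColours G : ℝ≥0∞) =
      ∑' ω, (if A = a ω then (Fintype.card Ω : ℝ≥0∞)⁻¹ else 0) * (A.numColours G : ℝ≥0∞) := by
    intro A
    rw [PMF.map_apply, ENNReal.tsum_mul_right]
    congr 1
    refine tsum_congr fun ω => ?_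
    rw [PMF.uniformOfFintype_apply]
  rw [tsum_congr h1, ENNReal.tsum_comm, tsum_fintype]
  refine Finset.sum_congr rfl fun ω _ => ?_
  rw [tsum_eq_single (a ω)]
  · rw [if_pos rfl]
  · intro A hA
    rw [if_neg hA, zero_mul]

/-- The upper bound from a certificate. -/
theorem f_le_of_cert {β M : ℝ} {u : ℝ → ℝ} (C : Cert β M u) (n : ℕ) (hn : 1 ≤ n) :
    f n ≤ ENNReal.ofReal (2 * (Real.log n / Real.log β +
      (Real.log M / Real.log β + 1 + (1 - β⁻¹)⁻¹))) := by
  unfold f
  refine iInf_le_of_le ((PMF.uniformOfFintype (Om n)).map alg) ?_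
  unfold cost
  refine iSup₂_le fun G hG => ?_
  obtain ⟨g, hg⟩ := exists_frame G hG
  rw [expColours_map]
  have h1 : ∀ ω : Om n, (Fintype.card (Om n) : ℝ≥0∞)⁻¹ * ((alg ω).numColours G : ℝ≥0∞) ≤
      ENNReal.ofReal ((2 * ((foldS (fun _ => true) (comps G g n) ω).1 : ℝ)) / 2 ^ n) := by
    intro ω
    have h2 := numColours_le ω G g hg
    have h3 : (Fintype.card (Om n) : ℝ≥0∞)⁻¹ = ENNReal.ofReal (1 / 2 ^ n) := by
      rw [one_div, ENNReal.ofReal_inv_of_pos (by positivity)]
      congr 1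
      rw [← card_Om n, ENNReal.ofReal_natCast]
    rw [h3, ← ENNReal.ofReal_natCast, ← ENNReal.ofReal_mul (by positivity)]
    refine ENNReal.ofReal_le_ofReal ?_
    have h4 : ((alg ω).numColours G : ℝ) ≤
        2 * ((foldS (fun _ => true) (comps G g n) ω).1 : ℝ) := by exact_mod_cast h2
    rw [one_div, inv_mul_eq_div]
    gcongr
  refine (Finset.sum_le_sum fun ω _ => h1 ω).trans ?_
  rw [← ENNReal.ofReal_sum_of_nonneg (fun ω _ => by positivity)]
  refine ENNReal.ofReal_le_ofReal ?_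
  have h5 : ∑ ω : Om n, (2 * ((foldS (fun _ => true) (comps G g n) ω).1 : ℝ)) / 2 ^ n =
      2 * ev (fun ω => ((foldS (fun _ => true) (comps G g n) ω).1 : ℝ)) := by
    unfold ev
    rw [← Finset.sum_div, ← Finset.mul_sum, mul_div_assoc]
  rw [h5]
  have := ev_level_le hn C G g
  linarith

/-- The constant `1.027`. -/
theorem f_le_1027 {M : ℝ} {u : ℝ → ℝ} (C : Cert (27 / 7) M u) :
    ∃ K : ℝ, ∀ n : ℕ, 1 ≤ n → f n ≤ ENNReal.ofReal (1.027 * Real.logb 2 n + K) := by
  refine ⟨2 * (Real.log M / Real.log (27 / 7) + 1 + (1 - (27 / 7 : ℝ)⁻¹)⁻¹), fun n hn => ?_⟩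
  refine (f_le_of_cert C n hn).trans (ENNReal.ofReal_le_ofReal ?_)
  have hn' : (1 : ℝ) ≤ n := by exact_mod_cast hn
  have hlogn : 0 ≤ Real.log n := Real.log_nonneg hn'
  have hl2 : 0 < Real.log 2 := Real.log_pos (by norm_num)
  have hlβ : 0 < Real.log (27 / 7) := Real.log_pos (by norm_num)
  have key : 779 * Real.log 2 ≤ 400 * Real.log (27 / 7) := by
    have h1 : Real.log ((2 : ℝ) ^ 38 * 1.9327) ≤ Real.log ((27 / 7 : ℝ) ^ 20) :=
      Real.log_le_log (by positivity) (by norm_num)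
    have h2 : Real.log ((2 : ℝ) ^ 19) ≤ Real.log ((1.9327 : ℝ) ^ 20) :=
      Real.log_le_log (by positivity) (by norm_num)
    rw [Real.log_mul (by positivity) (by norm_num), Real.log_pow, Real.log_pow] at h1
    rw [Real.log_pow, Real.log_pow] at h2
    push_cast at h1 h2
    linarith
  have h2 : 2 * (Real.log n / Real.log (27 / 7)) ≤ 1.027 * Real.logb 2 n := by
    rw [Real.logb]
    have h3 : 2 * (Real.log n / Real.log (27 / 7)) = Real.log n * (2 / Real.log (27 / 7)) := by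
      ring
    have h4 : (1.027 : ℝ) * (Real.log n / Real.log 2) = Real.log n * (1.027 / Real.log 2) := by
      ring
    rw [h3, h4]
    refine mul_le_mul_of_nonneg_left ?_ hlogn
    rw [div_le_div_iff₀ hlβ hl2]
    nlinarith
  linarith

end Pool.Agent.Helper4.UB
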