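import Pool.Agent.Helper4.UB.Tab

/-!
# Checkers for the table, and their soundness
-/

set_option autoImplicit false

namespace Pool.Agent.Helper4.UB

/-- entries of the table: `(U, Q, A)` -/
abbrev Ent := ℕ × ℕ × ℕ

/-- default entry -/
def de : Ent := (0, 0, 0)

/-- one row of pair checks -/
def ckRow (a q A : ℕ) : List Ent → List Ent → Bool
  | _, [] => true
  | [], _ :: _ => false
  | (b, q', B) :: rs, (w, _, _) :: vs =>
    and (Nat.ble (Nat.add (Nat.add (Nat.mul 2147483648 w) (Nat.mul A B))
      (Nat.mul 4 (Nat.mul q q'))) (Nat.mul 8 (Nat.mul a b))) (ckRow a q A rs vs)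

/-- all rows -/
def ckAll : List Ent → List Ent → Bool
  | (a, q, A) :: rs, v1 :: v2 :: vs =>
    and (ckRow a q A ((a, q, A) :: rs) (v1 :: v2 :: vs)) (ckAll rs vs)
  | (a, q, A) :: rs, v1 :: [] => ckRow a q A ((a, q, A) :: rs) (v1 :: [])
  | [], _ :: _ => false
  | _, [] => true

/-- the pair inequality -/
def PairI (x y w : Ent) : Prop :=
  2147483648 * w.1 + x.2.2 * y.2.2 + 4 * (x.2.1 * y.2.1) ≤ 8 * (x.1 * y.1)

theorem ckRow_sound (a q A : ℕ) : ∀ (rs vs : List Ent), ckRow a q A rs vs = true →
    ∀ k, k < vs.length → PairI (a, q, A) (rs.getD k de) (vs.getD k de)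
  | _, [], _, k, hk => by simp at hk
  | [], v :: vs, h, _, _ => by simp [ckRow] at h
  | (b, q', B) :: rs, (w, x, y) :: vs, h, k, hk => by
    rw [ckRow, Bool.and_eq_true] at h
    obtain ⟨h1, h2⟩ := h
    cases k with
    | zero =>
      have h3 := Nat.le_of_ble_eq_true h1
      simp only [List.getD_cons_zero]
      exact h3
    | succ k =>
      simp only [List.getD_cons_succ]
      exact ckRow_sound a q A rs vs h2 k (by simpa using hk)

theorem ckAll_sound : ∀ (rs vs : List Ent), ckAll rs vs = true →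
    ∀ m k, 2 * m + k < vs.length →
      PairI (rs.getD m de) (rs.getD (m + k) de) (vs.getD (2 * m + k) de)
  | (a, q, A) :: rs, v1 :: v2 :: vs, h, m, k, hk => by
    rw [ckAll, Bool.and_eq_true] at h
    obtain ⟨h1, h2⟩ := h
    cases m with
    | zero =>
      have := ckRow_sound a q A _ _ h1 k (by simpa using hk)
      simpa using this
    | succ m =>
      have h3 := ckAll_sound rs vs h2 m k (by simp at hk; omega)
      have e1 : 2 * (m + 1) + k = (2 * m + k) + 1 + 1 := by ring
      have e2 : m + 1 + k = (m + k) + 1 := by ring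
      rw [e1, e2]
      simp only [List.getD_cons_succ]
      exact h3
  | (a, q, A) :: rs, v1 :: [], h, m, k, hk => by
    rw [ckAll] at h
    simp at hk
    obtain ⟨rfl, rfl⟩ : m = 0 ∧ k = 0 := by omega
    have := ckRow_sound a q A _ _ h 0 (by simp)
    simpa using this
  | [], v :: vs, h, m, k, hk => by simp [ckAll] at h
  | _, [], _, m, k, hk => by simp at hk

/-- check of consecutive triples -/
def ckN (f : Ent → Ent → Ent → Bool) : List Ent → Bool
  | a :: b :: c :: l => and (f a b c) (ckN f (b :: c :: l))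
  | _ => true

theorem ckN_sound (f : Ent → Ent → Ent → Bool) : ∀ l : List Ent, ckN f l = true →
    ∀ i, i + 2 < l.length → f (l.getD i de) (l.getD (i + 1) de) (l.getD (i + 2) de) = true
  | a :: b :: c :: l, h, i, hi => by
    rw [ckN, Bool.and_eq_true] at h
    obtain ⟨h1, h2⟩ := h
    cases i with
    | zero => simpa using h1
    | succ i =>
      have h3 := ckN_sound f (b :: c :: l) h2 i (by simp at hi ⊢; omega)
      simpa using h3
  | [], _, i, hi => by simp at hi
  | [_], _, i, hi => by simp at hi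
  | [_, _], _, i, hi => by simp at hi

/-- monotonicity and positivity -/
def f0 : Ent → Ent → Ent → Bool
  | (u0, q0, _), (u1, _, _), _ => and (Nat.ble u1 u0) (Nat.ble q0 u0)

/-- increments of `Q`, first slope conditions; `w1 = 1`, `W = 10` -/
def f1 : Ent → Ent → Ent → Bool
  | (u0, q0, A0), (u1, q1, A1), _ =>
    and (and (and (Nat.ble q1 (Nat.add q0 A0)) (Nat.ble q0 (Nat.add q1 A0)))
      (and (Nat.ble q1 (Nat.add q0 A1)) (Nat.ble q0 (Nat.add q1 A1))))
    (and (Nat.ble (Nat.add (Nat.add (Nat.mul 536870912 u1) (Nat.mul 2 u0)) (Nat.mul 10 q0))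
        (Nat.mul 536870912 u0))
      (Nat.ble (Nat.add (Nat.add (Nat.mul 536870912 u1) (Nat.mul 2 u0)) (Nat.mul 10 q1))
        (Nat.mul 536870912 u0)))

/-- second slope conditions -/
def f2 : Ent → Ent → Ent → Bool
  | (u0, q0, _), (u1, q1, _), (u2, _, _) =>
    and (Nat.ble (Nat.add (Nat.add (Nat.mul 536870912 u2) (Nat.mul 2 u0)) (Nat.mul 10 q0))
        (Nat.mul 536870912 u1))
      (Nat.ble (Nat.add (Nat.add (Nat.mul 536870912 u2) (Nat.mul 2 u0)) (Nat.mul 10 q1))
        (Nat.mul 536870912 u1))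

/-- `P = 0` -/
def f3 : Ent → Ent → Ent → Bool
  | (u0, q0, _), _, _ => Nat.beq u0 q0

/-- the list `(r, 27 - r)` -/
def R27 : List (ℕ × ℕ) :=
  [(0, 27), (1, 26), (2, 25), (3, 24), (4, 23), (5, 22), (6, 21), (7, 20), (8, 19), (9, 18),
   (10, 17), (11, 16), (12, 15), (13, 14), (14, 13), (15, 12), (16, 11), (17, 10), (18, 9),
   (19, 8), (20, 7), (21, 6), (22, 5), (23, 4), (24, 3), (25, 2), (26, 1)]

/-- the list `(s, 7 - s)` -/
def S7 : List (ℕ × ℕ) := [(0, 7), (1, 6), (2, 5), (3, 4), (4, 3), (5, 2), (6, 1)]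

/-- the walk comparing the lower function with the scaled upper function -/
def walk : ℕ → List (ℕ × ℕ) → List (ℕ × ℕ) → List Ent → List Ent → Bool
  | 0, _, _, _, _ => true
  | fuel + 1, (r, r') :: rl, (s, s') :: sl, (u0, q0, A0) :: (u1, q1, A1) :: ps,
      (v0, x0, y0) :: (v1, x1, y1) :: us =>
    and (Nat.ble (Nat.mul 7 (Nat.add (Nat.mul r' u0) (Nat.mul r u1)))
      (Nat.add (Nat.mul 27 (Nat.add (Nat.mul s' v0) (Nat.mul s v1)))
        (Nat.mul 7 (Nat.add (Nat.mul r' q0) (Nat.mul r q1)))))
    (match rl, sl with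
      | [], [] => walk fuel R27 S7 ((u1, q1, A1) :: ps) ((v1, x1, y1) :: us)
      | [], a :: sl => walk fuel R27 (a :: sl) ((u1, q1, A1) :: ps)
          ((v0, x0, y0) :: (v1, x1, y1) :: us)
      | a :: rl, [] => walk fuel (a :: rl) S7 ((u0, q0, A0) :: (u1, q1, A1) :: ps)
          ((v1, x1, y1) :: us)
      | a :: rl, b :: sl => walk fuel (a :: rl) (b :: sl) ((u0, q0, A0) :: (u1, q1, A1) :: ps)
          ((v0, x0, y0) :: (v1, x1, y1) :: us))
  | _ + 1, _, _, _, _ => false

/-- the inequality at step `l` -/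
def CompI (T : List Ent) (l : ℕ) : Prop :=
  7 * ((27 - l % 27) * (T.getD (l / 27) de).1 + (l % 27) * (T.getD (l / 27 + 1) de).1) ≤
    27 * ((7 - l % 7) * (T.getD (l / 7) de).1 + (l % 7) * (T.getD (l / 7 + 1) de).1) +
    7 * ((27 - l % 27) * (T.getD (l / 27) de).2.1 + (l % 27) * (T.getD (l / 27 + 1) de).2.1)

theorem drop_R27 (r : ℕ) (hr : r < 27) : R27.drop r = (r, 27 - r) :: R27.drop (r + 1) := by
  interval_cases r <;> rfl

theorem drop_S7 (s : ℕ) (hs : s < 7) : S7.drop s = (s, 7 - s) :: S7.drop (s + 1) := by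
  interval_cases s <;> rfl

theorem drop_two {α : Type*} (T : List α) (i : ℕ) (x y : α) (l : List α)
    (h : T.drop i = x :: y :: l) : T.drop (i + 1) = y :: l := by
  rw [← List.drop_drop, h]
  rfl

theorem getD_of_drop (T : List Ent) (i : ℕ) (x y : Ent) (l : List Ent)
    (h : T.drop i = x :: y :: l) : T.getD i de = x ∧ T.getD (i + 1) de = y := by
  have h0 : ∀ j, T.getD (i + j) de = (T.drop i).getD j de := by
    intro j
    simp [List.getD_eq_getElem?_getD, List.getElem?_drop]
  refine ⟨?_, ?_⟩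
  · have := h0 0
    rw [h] at this
    simpa using this
  · have := h0 1
    rw [h] at this
    simpa using this

theorem walk_sound (T : List Ent) : ∀ (fuel l : ℕ) (rl sl : List (ℕ × ℕ)) (ps us : List Ent),
    rl = R27.drop (l % 27) → sl = S7.drop (l % 7) → ps = T.drop (l / 27) → us = T.drop (l / 7) →
    walk fuel rl sl ps us = true → ∀ j, j < fuel → CompI T (l + j) := by
  intro fuel
  induction fuel with
  | zero => intro l rl sl ps us _ _ _ _ _ j hj; omega
  | succ fuel ih =>
    intro l rl sl ps us hrl hsl hps hus hw j hj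
    have hr := drop_R27 (l % 27) (Nat.mod_lt _ (by norm_num))
    have hs := drop_S7 (l % 7) (Nat.mod_lt _ (by norm_num))
    rw [hr] at hrl
    rw [hs] at hsl
    subst hrl hsl
    match ps, us, hps, hus with
    | [], _, _, _ => simp [walk] at hw
    | [_], _, _, _ => simp [walk] at hw
    | _ :: _ :: _, [], _, _ => simp [walk] at hw
    | _ :: _ :: _, [_], _, _ => simp [walk] at hw
    | (u0, q0, A0) :: (u1, q1, A1) :: ps, (v0, x0, y0) :: (v1, x1, y1) :: us, hps, hus =>
      obtain ⟨gp0, gp1⟩ := getD_of_drop T _ _ _ _ hps.symm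
      obtain ⟨gu0, gu1⟩ := getD_of_drop T _ _ _ _ hus.symm
      simp only [walk, Bool.and_eq_true] at hw
      obtain ⟨hw1, hw2⟩ := hw
      cases j with
      | zero =>
        have h1 := Nat.le_of_ble_eq_true hw1
        unfold CompI
        rw [Nat.add_zero, gp0, gp1, gu0, gu1]
        exact h1
      | succ j =>
        have e : l + (j + 1) = (l + 1) + j := by ring
        rw [e]
        have hj' : j < fuel := by omega
        have hps' := drop_two T _ _ _ _ hps.symm
        have hus' := drop_two T _ _ _ _ hus.symm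
        by_cases c1 : l % 27 = 26 <;> by_cases c2 : l % 7 = 6
        · have a1 : R27.drop (l % 27 + 1) = [] := by rw [c1]; rfl
          have a2 : S7.drop (l % 7 + 1) = [] := by rw [c2]; rfl
          rw [a1, a2] at hw2
          refine ih (l + 1) R27 S7 _ _ ?_ ?_ ?_ ?_ hw2 j hj'
          · rw [show (l + 1) % 27 = 0 by omega]; rfl
          · rw [show (l + 1) % 7 = 0 by omega]; rfl
          · rw [show (l + 1) / 27 = l / 27 + 1 by omega]; exact hps'.symm
          · rw [show (l + 1) / 7 = l / 7 + 1 by omega]; exact hus'.symm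
        · have a1 : R27.drop (l % 27 + 1) = [] := by rw [c1]; rfl
          have a2 := drop_S7 (l % 7 + 1) (by omega)
          rw [a1, a2] at hw2
          refine ih (l + 1) R27 _ _ _ ?_ ?_ ?_ ?_ hw2 j hj'
          · rw [show (l + 1) % 27 = 0 by omega]; rfl
          · rw [show (l + 1) % 7 = l % 7 + 1 by omega]; exact a2.symm
          · rw [show (l + 1) / 27 = l / 27 + 1 by omega]; exact hps'.symm
          · rw [show (l + 1) / 7 = l / 7 by omega]; exact hus
        · have a1 := drop_R27 (l % 27 + 1) (by omega)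
          have a2 : S7.drop (l % 7 + 1) = [] := by rw [c2]; rfl
          rw [a1, a2] at hw2
          refine ih (l + 1) _ S7 _ _ ?_ ?_ ?_ ?_ hw2 j hj'
          · rw [show (l + 1) % 27 = l % 27 + 1 by omega]; exact a1.symm
          · rw [show (l + 1) % 7 = 0 by omega]; rfl
          · rw [show (l + 1) / 27 = l / 27 by omega]; exact hps
          · rw [show (l + 1) / 7 = l / 7 + 1 by omega]; exact hus'.symm
        · have a1 := drop_R27 (l % 27 + 1) (by omega)
          have a2 := drop_S7 (l % 7 + 1) (by omega)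
          rw [a1, a2] at hw2
          refine ih (l + 1) _ _ _ _ ?_ ?_ ?_ ?_ hw2 j hj'
          · rw [show (l + 1) % 27 = l % 27 + 1 by omega]; exact a1.symm
          · rw [show (l + 1) % 7 = l % 7 + 1 by omega]; exact a2.symm
          · rw [show (l + 1) / 27 = l / 27 by omega]; exact hps
          · rw [show (l + 1) / 7 = l / 7 by omega]; exact hus

end Pool.Agent.Helper4.UB
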