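import Pool.Agent.Helper4.UB.PL

/-!
# A table gives a certificate
-/

set_option autoImplicit false

namespace Pool.Agent.Helper4.UB

variable {N : ℕ} {a q A : ℕ → ℝ}

/-- the lower function -/
noncomputable def PP (a q : ℕ → ℝ) (x : ℝ) : ℝ := pl (fun i => a i - q i) x

theorem PP_nonneg (T : Tab N a q A) (x : ℝ) (hx : 0 ≤ x) : 0 ≤ PP a q x := by
  obtain ⟨i, h1, h2⟩ := exists_cell x hx
  unfold PP
  rw [pl_eq _ i x h1 h2]
  have e1 : 0 ≤ a i - q i := by have := T.q_le i; linarith
  have e2 : 0 ≤ a (i + 1) - q (i + 1) := by have := T.q_le (i + 1); linarith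
  have : (a i - q i) + (x - i) * ((a (i + 1) - q (i + 1)) - (a i - q i)) =
      (1 - (x - i)) * (a i - q i) + (x - i) * (a (i + 1) - q (i + 1)) := by ring
  rw [this]
  have h3 : 0 ≤ 1 - (x - i) := by linarith
  have h4 : 0 ≤ x - i := by linarith
  positivity

theorem PP_le_prof (T : Tab N a q A) (x : ℝ) (hx : 0 ≤ x) : PP a q x ≤ prof a q x :=
  (pP_le T x hx).trans (prof_anti T _ _ hx (by nlinarith))

theorem prof_sub_PP (T : Tab N a q A) (i : ℕ) (hi : 1 ≤ i) (x : ℝ) (h1 : (i : ℝ) ≤ x)
    (h2 : x ≤ i + 1) : prof a q x - PP a q x = q i + (x - i) * (q (i + 1) - q i) := by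
  have hx : 1 ≤ x := le_trans (by exact_mod_cast hi) h1
  rw [prof_big x hx, pl_eq a i x h1 h2, PP, pl_eq _ i x h1 h2]
  ring

theorem big_big (T : Tab N a q A) (x y : ℝ) (hx : 1 ≤ x) (hy : 1 ≤ y) (hN : x + y < N) :
    prof a q (x + y) ≤ prof a q x * prof a q y -
      1 / 2 * ((prof a q x - PP a q x) * (prof a q y - PP a q y)) := by
  obtain ⟨i, hi, hi1, hi2⟩ := exists_cell_one x hx
  obtain ⟨j, hj, hj1, hj2⟩ := exists_cell_one y hy
  rw [prof_sub_PP T i hi x hi1 hi2, prof_sub_PP T j hj y hj1 hj2, prof_big (x + y) (by linarith),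
    prof_big x hx, prof_big y hy, pl_eq a i x hi1 hi2, pl_eq a j y hj1 hj2]
  set s := x - i with hs
  set t := y - j with ht
  have hs0 : 0 ≤ s := by linarith
  have hs1 : s ≤ 1 := by linarith
  have ht0 : 0 ≤ t := by linarith
  have ht1 : t ≤ 1 := by linarith
  have hij : i + j < N := by
    have : ((i + j : ℕ) : ℝ) < N := by push_cast; linarith
    exact_mod_cast this
  set e := |q (i + 1) - q i| * |q (j + 1) - q j| / 8 with he
  have he0 : 0 ≤ e := by positivity
  have hL1 := T.Aleft i hi
  have hL2 := T.Aleft j hj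
  have hR1 := T.Aright i hi
  have hR2 := T.Aright j hj
  have m00 : a (i + j) + e ≤ a i * a j - q i * q j / 2 := by
    have h1 := T.pair i j hi hj (by omega)
    have h2 := mul_le_mul hL1 hL2 (abs_nonneg _) (T.A_nonneg i)
    rw [he]; linarith
  have m10 : a (i + j + 1) + e ≤ a (i + 1) * a j - q (i + 1) * q j / 2 := by
    have h1 := T.pair (i + 1) j (by omega) hj (by omega)
    have h2 := mul_le_mul hR1 hL2 (abs_nonneg _) (T.A_nonneg (i + 1))
    have e1 : i + 1 + j = i + j + 1 := by ring
    rw [e1] at h1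
    rw [he]; linarith
  have m01 : a (i + j + 1) + e ≤ a i * a (j + 1) - q i * q (j + 1) / 2 := by
    have h1 := T.pair i (j + 1) hi (by omega) (by omega)
    have h2 := mul_le_mul hL1 hR2 (abs_nonneg _) (T.A_nonneg i)
    have e1 : i + (j + 1) = i + j + 1 := by ring
    rw [e1] at h1
    rw [he]; linarith
  set d := (a (i + 1) - a i) * (a (j + 1) - a j) - (q (i + 1) - q i) * (q (j + 1) - q j) / 2 with hd
  have hdd : d = (a i * a j - q i * q j / 2) - (a (i + 1) * a j - q (i + 1) * q j / 2) -
      (a i * a (j + 1) - q i * q (j + 1) / 2) +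
      (a (i + 1) * a (j + 1) - q (i + 1) * q (j + 1) / 2) := by
    rw [hd]; ring
  have hde : -d ≤ 4 * e := by
    have h1 : 0 ≤ (a (i + 1) - a i) * (a (j + 1) - a j) :=
      mul_nonneg_of_nonpos_of_nonpos (by have := T.mono i; linarith)
        (by have := T.mono j; linarith)
    have h2 : (q (i + 1) - q i) * (q (j + 1) - q j) ≤ |q (i + 1) - q i| * |q (j + 1) - q j| := by
      rw [← abs_mul]; exact le_abs_self _
    rw [hd, he]; linarith
  have hT : (a i + s * (a (i + 1) - a i)) * (a j + t * (a (j + 1) - a j)) -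
      1 / 2 * ((q i + s * (q (i + 1) - q i)) * (q j + t * (q (j + 1) - q j))) =
      (1 - s) * (1 - t) * (a i * a j - q i * q j / 2) +
      s * (1 - t) * (a (i + 1) * a j - q (i + 1) * q j / 2) +
      (1 - s) * t * (a i * a (j + 1) - q i * q (j + 1) / 2) +
      s * t * (a (i + 1) * a (j + 1) - q (i + 1) * q (j + 1) / 2) := by ring
  rw [hT]
  rcases le_total (s + t) 1 with hst | hst
  · have hc : x + y ∈ Set.Icc ((i + j : ℕ) : ℝ) ((i + j : ℕ) + 1) := by
      constructor <;> push_cast <;> linarith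
    rw [pl_eq a (i + j) (x + y) hc.1 hc.2]
    have := (cell_ineq m00 m10 m01 (u2 := 0) (Or.inr hst) hdd hde he0 hs0 hs1 ht0 ht1).1 hst
    refine le_trans (le_of_eq ?_) this
    push_cast
    rw [hs, ht]
    ring
  · have hc : x + y ∈ Set.Icc ((i + j + 1 : ℕ) : ℝ) ((i + j + 1 : ℕ) + 1) := by
      constructor <;> push_cast <;> linarith
    have hij2 : i + j + 1 < N := by
      have : ((i + j + 1 : ℕ) : ℝ) < N := by push_cast; linarith
      exact_mod_cast this
    have m11 : a (i + j + 2) + e ≤ a (i + 1) * a (j + 1) - q (i + 1) * q (j + 1) / 2 := by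
      have h1 := T.pair (i + 1) (j + 1) (by omega) (by omega) (by omega)
      have h2 := mul_le_mul hR1 hR2 (abs_nonneg _) (T.A_nonneg (i + 1))
      have e1 : i + 1 + (j + 1) = i + j + 2 := by ring
      rw [e1] at h1
      rw [he]; linarith
    rw [pl_eq a (i + j + 1) (x + y) hc.1 hc.2]
    have := (cell_ineq m00 m10 m01 (Or.inl m11) hdd hde he0 hs0 hs1 ht0 ht1).2 hst m11
    refine le_trans (le_of_eq ?_) this
    push_cast
    rw [hs, ht]
    ring

theorem small_facts (T : Tab N a q A) (x : ℝ) (hx : 0 ≤ x) (hx1 : x ≤ 1) :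
    PP a q x = 1 - (1 - (a 1 - q 1)) * x := by
  rw [PP, pl_eq _ 0 x (by simpa using hx) (by simpa using hx1), T.a0, T.q0]
  push_cast
  ring

theorem tiny_big (T : Tab N a q A) (x y : ℝ) (hx : 0 ≤ x) (hx1 : x ≤ 1) (hy : 1 ≤ y)
    (hN : x + y < N) :
    prof a q (x + y) ≤ prof a q x * prof a q y -
      1 / 2 * ((prof a q x - PP a q x) * (prof a q y - PP a q y)) := by
  obtain ⟨j, hj, hj1, hj2⟩ := exists_cell_one y hy
  have hqy := prof_sub_PP T j hj y hj1 hj2
  have hy0 : 0 ≤ prof a q y := prof_nonneg T y (by linarith)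
  have hqy0 : 0 ≤ prof a q y - PP a q y := by
    have := PP_le_prof T y (by linarith)
    linarith
  have hpx0 : 0 ≤ prof a q x - PP a q x := by
    have := PP_le_prof T x hx
    linarith
  have hPx := small_facts T x hx hx1
  have hprofx := prof_small (a := a) (q := q) x hx1
  have hW := W_nonneg T
  have hkap := T.kap
  have hkap0 : 0 ≤ (1 - (a 1 - q 1)) ^ 2 / 4 := by positivity
  set W := 1 - (a 1 - q 1) with hWdef
  set w1 := 1 - a 1 with hw1
  have hw10 : 0 ≤ w1 := by linarith
  -- bounds on the factors in `x`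
  have b1 : 1 - w1 * x ≤ prof a q x := by
    rw [hprofx]
    nlinarith [mul_nonneg hkap0 (mul_nonneg hx (by linarith : (0 : ℝ) ≤ 1 - x))]
  have b2 : prof a q x - PP a q x ≤ W * x := by
    rw [hPx, hprofx]
    have h1 : 0 ≤ (w1 - W ^ 2 / 4) * x := mul_nonneg (by linarith) hx
    have h2 : 0 ≤ W ^ 2 / 4 * x ^ 2 := by positivity
    nlinarith
  have b3 : (1 - w1 * x) * prof a q y ≤ prof a q x * prof a q y :=
    mul_le_mul_of_nonneg_right b1 hy0
  have b4 : (prof a q x - PP a q x) * (prof a q y - PP a q y) ≤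
      W * x * (prof a q y - PP a q y) := mul_le_mul_of_nonneg_right b2 hqy0
  have hjN : j + 1 ≤ N := by
    have : (j : ℝ) < N := by linarith
    exact_mod_cast this
  set t := y - j with ht
  have ht0 : 0 ≤ t := by linarith
  have ht1 : t ≤ 1 := by linarith
  have hpy : prof a q y = a j + t * (a (j + 1) - a j) := by
    rw [prof_big y hy, pl_eq a j y hj1 hj2]
  -- the slope bound
  have hmono := T.mono j
  have hC : w1 * prof a q y + W * (prof a q y - PP a q y) / 2 ≤
      (1 - t) * (w1 * a j + W * q j / 2) + t * (w1 * a j + W * q (j + 1) / 2) := by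
    rw [hqy, hpy]
    have : 0 ≤ w1 * (t * (a j - a (j + 1))) :=
      mul_nonneg hw10 (mul_nonneg ht0 (by linarith))
    nlinarith
  have hC1 : w1 * prof a q y + W * (prof a q y - PP a q y) / 2 ≤ a j - a (j + 1) := by
    refine hC.trans ?_
    have h1 := mul_le_mul_of_nonneg_left (T.tb1 j hj hjN) (by linarith : (0 : ℝ) ≤ 1 - t)
    have h2 := mul_le_mul_of_nonneg_left (T.tb2 j hj hjN) ht0
    nlinarith
  have key : prof a q (x + y) ≤ prof a q y -
      x * (w1 * prof a q y + W * (prof a q y - PP a q y) / 2) := by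
    rcases le_total (x + y) (j + 1) with h | h
    · have e1 : prof a q (x + y) = a j + (x + y - j) * (a (j + 1) - a j) := by
        rw [prof_big _ (by linarith), pl_eq a j (x + y) (by linarith) h]
      rw [e1]
      have h2 := mul_le_mul_of_nonneg_left hC1 hx
      rw [hpy] at h2 ⊢
      nlinarith
    · have hjN2 : j + 2 ≤ N := by
        have : ((j + 1 : ℕ) : ℝ) < N := by push_cast; linarith
        have : j + 1 < N := by exact_mod_cast this
        omega
      have hC2 : w1 * prof a q y + W * (prof a q y - PP a q y) / 2 ≤ a (j + 1) - a (j + 2) := by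
        refine hC.trans ?_
        have h1 := mul_le_mul_of_nonneg_left (T.tb3 j hj hjN2) (by linarith : (0 : ℝ) ≤ 1 - t)
        have h2 := mul_le_mul_of_nonneg_left (T.tb4 j hj hjN2) ht0
        nlinarith
      have e1 : prof a q (x + y) = a (j + 1) + (x + y - (j + 1)) * (a (j + 2) - a (j + 1)) := by
        rw [prof_big _ (by linarith), pl_eq a (j + 1) (x + y) (by push_cast; linarith)
          (by push_cast; linarith)]
        push_cast
        ring
      rw [e1]
      have h2 := mul_le_mul_of_nonneg_left hC1 (by linarith : (0 : ℝ) ≤ j + 1 - y)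
      have h3 := mul_le_mul_of_nonneg_left hC2 (by linarith : (0 : ℝ) ≤ x + y - (j + 1))
      set C := w1 * prof a q y + W * (prof a q y - PP a q y) / 2 with hCdef
      have h4 : x * C = (j + 1 - y) * C + (x + y - (j + 1)) * C := by ring
      have h5 : prof a q y = a (j + 1) + (j + 1 - y) * (a j - a (j + 1)) := by
        rw [hpy, ht]; ring
      rw [h4, h5]
      nlinarith
  nlinarith

theorem tiny_tiny (T : Tab N a q A) (x y : ℝ) (hx : 0 ≤ x) (hx1 : x ≤ 1) (hy : 0 ≤ y)
    (hy1 : y ≤ 1) :
    prof a q (x + y) ≤ prof a q x * prof a q y -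
      1 / 2 * ((prof a q x - PP a q x) * (prof a q y - PP a q y)) := by
  have hpx0 : 0 ≤ prof a q x - PP a q x := by
    have := PP_le_prof T x hx
    linarith
  have hpy0 : 0 ≤ prof a q y - PP a q y := by
    have := PP_le_prof T y hy
    linarith
  have hPx := small_facts T x hx hx1
  have hPy := small_facts T y hy hy1
  have hprofx := prof_small (a := a) (q := q) x hx1
  have hprofy := prof_small (a := a) (q := q) y hy1
  have hW := W_nonneg T
  have hkap := T.kap
  have hw2 := T.w2
  set W := 1 - (a 1 - q 1) with hWdef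
  set w1 := 1 - a 1 with hw1
  have wx0 : 0 ≤ (w1 - W ^ 2 / 4) * x + W ^ 2 / 4 * x ^ 2 := by
    have h1 : 0 ≤ (w1 - W ^ 2 / 4) * x := mul_nonneg (by linarith) hx
    positivity
  have wy0 : 0 ≤ (w1 - W ^ 2 / 4) * y + W ^ 2 / 4 * y ^ 2 := by
    have h1 : 0 ≤ (w1 - W ^ 2 / 4) * y := mul_nonneg (by linarith) hy
    positivity
  have bx : prof a q x - PP a q x ≤ W * x := by
    rw [hPx, hprofx]
    linarith
  have by' : prof a q y - PP a q y ≤ W * y := by
    rw [hPy, hprofy]
    linarith
  have b4 : (prof a q x - PP a q x) * (prof a q y - PP a q y) ≤ W * x * (W * y) :=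
    mul_le_mul bx by' hpy0 (by positivity)
  have b5 : 1 - ((w1 - W ^ 2 / 4) * x + W ^ 2 / 4 * x ^ 2) -
      ((w1 - W ^ 2 / 4) * y + W ^ 2 / 4 * y ^ 2) ≤ prof a q x * prof a q y := by
    rw [hprofx, hprofy]
    nlinarith [mul_nonneg wx0 wy0]
  rcases le_total (x + y) 1 with h | h
  · rw [prof_small (x + y) h]
    nlinarith
  · have e1 : prof a q (x + y) = a 1 + (x + y - 1) * (a 2 - a 1) := by
      rw [prof_big _ h, pl_eq a 1 (x + y) (by push_cast; linarith) (by push_cast; linarith)]
      push_cast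
      ring
    rw [e1]
    have h1 : 0 ≤ (1 - x) * (x - (1 - y)) := mul_nonneg (by linarith) (by linarith)
    have h2 : 0 ≤ (1 - y) * (y - (1 - x)) := mul_nonneg (by linarith) (by linarith)
    have h3 : 0 ≤ W ^ 2 / 4 * ((1 - x) * (x - (1 - y))) := by positivity
    have h4 : 0 ≤ W ^ 2 / 4 * ((1 - y) * (y - (1 - x))) := by positivity
    have h5 : (x + y - 1) * (2 * w1 + W ^ 2 / 2) ≤ (x + y - 1) * (1 - a 2) :=
      mul_le_mul_of_nonneg_left hw2 (by linarith)
    nlinarith

theorem prof_ineq (T : Tab N a q A) (x y : ℝ) (hx : 0 ≤ x) (hy : 0 ≤ y) :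
    prof a q (x + y) ≤ prof a q x * prof a q y -
      1 / 2 * ((prof a q x - PP a q x) * (prof a q y - PP a q y)) := by
  rcases lt_or_ge (x + y) N with hN | hN
  · rcases le_total x 1 with hx1 | hx1
    · rcases le_total y 1 with hy1 | hy1
      · exact tiny_tiny T x y hx hx1 hy hy1
      · exact tiny_big T x y hx hx1 hy1 hN
    · rcases le_total y 1 with hy1 | hy1
      · have := tiny_big T y x hy hy1 hx1 (by linarith)
        rw [add_comm x y, mul_comm (prof a q x), mul_comm (prof a q x - PP a q x)]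
        exact this
      · exact big_big T x y hx1 hy1 hN
  · have hN1 : (1 : ℝ) ≤ N := by
      have := T.N1
      exact_mod_cast (by omega : 1 ≤ N)
    rw [prof_big _ (hN1.trans hN), pl_van T _ hN]
    have h1 := prof_nonneg T x hx
    have h2 := prof_nonneg T y hy
    have h3 := PP_nonneg T x hx
    have h4 := PP_nonneg T y hy
    have h5 := PP_le_prof T x hx
    have h6 := PP_le_prof T y hy
    have h7 : (prof a q x - PP a q x) * (prof a q y - PP a q y) ≤ prof a q x * prof a q y :=
      mul_le_mul (by linarith) (by linarith) (by linarith) h1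
    have h8 : 0 ≤ prof a q x * prof a q y := mul_nonneg h1 h2
    linarith

/-- A table gives a certificate. -/
theorem tab_cert (T : Tab N a q A) : Cert (27 / 7) N (prof a q) := by
  have hN1 : (1 : ℝ) ≤ N := by
    have := T.N1
    exact_mod_cast (by omega : 1 ≤ N)
  refine ⟨by norm_num, hN1, ?_, fun x y => prof_anti T x y, fun x => prof_nonneg T x, ?_, ?_, ?_⟩
  · rw [prof_small 0 (by norm_num)]
    ring
  · intro x hx
    rw [prof_big _ (hN1.trans hx), pl_van T _ hx]
  · intro x y hx hy
    refine (prof_ineq T x y hx hy).trans ?_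
    have h1 := pP_le T x hx
    have h2 := pP_le T y hy
    change PP a q x ≤ _ at h1
    change PP a q y ≤ _ at h2
    have h3 : prof a q (27 / 7 * x) ≤ prof a q x := prof_anti T _ _ hx (by linarith)
    have h4 : prof a q (27 / 7 * y) ≤ prof a q y := prof_anti T _ _ hy (by linarith)
    have h5 : (prof a q x - prof a q (27 / 7 * x)) * (prof a q y - prof a q (27 / 7 * y)) ≤
        (prof a q x - PP a q x) * (prof a q y - PP a q y) :=
      mul_le_mul (by linarith) (by linarith) (by linarith) (by linarith)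
    linarith
  · intro x hx hx1
    rw [prof_small x hx1]
    have h1 := T.kap
    have h2 : 0 ≤ (1 - (a 1 - q 1)) ^ 2 / 4 := by positivity
    have h3 := a_nonneg T 1
    have h4 : 0 ≤ x * (1 - x) := mul_nonneg hx (by linarith)
    nlinarith [mul_nonneg h2 h4, mul_nonneg h3 hx]

end Pool.Agent.Helper4.UB
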