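import Pool.Agent.Helper4.UB.Check

/-!
# The kernel checks
-/

set_option autoImplicit false
set_option maxRecDepth 100000

namespace Pool.Agent.Helper4.UB

theorem ok_all : ckAll (tab.drop 1) (tab.drop 2) = true := by decide +kernel

end Pool.Agent.Helper4.UB
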