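import Pool.Agent.Helper4.UB.Lin
import Pool.Agent.Helper4.UB.Pairs
import Pool.Agent.Helper4.UB.PL2

/-!
# The table satisfies the conditions
-/

set_option autoImplicit false

namespace Pool.Agent.Helper4.UB

/-- entry `i` of the table -/
def En (i : ℕ) : Ent := tab.getD i de

noncomputable def aT (i : ℕ) : ℝ := ((En i).1 : ℝ) / 268435456
noncomputable def qT (i : ℕ) : ℝ := ((En i).2.1 : ℝ) / 268435456
noncomputable def AT (i : ℕ) : ℝ := ((En i).2.2 : ℝ) / 268435456

theorem En_big (i : ℕ) (hi : 850 < i) : En i = de := by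
  unfold En
  rw [List.getD_eq_default]
  rw [tab_len]
  omega

theorem getD_pad (L : List Ent) (i : ℕ) : (L ++ [de, de]).getD i de = L.getD i de := by
  rcases Nat.lt_or_ge i L.length with h | h
  · simp [List.getD_eq_getElem?_getD, List.getElem?_append_left h]
  · rw [List.getD_eq_default L de h]
    rw [List.getD_eq_getElem?_getD, List.getElem?_append_right h]
    rcases Nat.lt_or_ge (i - L.length) 2 with h2 | h2
    · interval_cases (i - L.length) <;> rfl
    · rw [List.getElem?_eq_none (by simpa using h2)]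
      rfl

theorem getD_drop' (L : List Ent) (m i : ℕ) : (L.drop m).getD i de = L.getD (m + i) de := by
  simp [List.getD_eq_getElem?_getD, List.getElem?_drop]

theorem En_f0 (i : ℕ) (hi : i ≤ 850) : (En (i + 1)).1 ≤ (En i).1 ∧ (En i).2.1 ≤ (En i).1 := by
  have h := ckN_sound f0 _ ok_f0 i (by rw [List.length_append, tab_len]; simp; omega)
  rw [getD_pad, getD_pad, getD_pad] at h
  change f0 (En i) (En (i + 1)) (En (i + 2)) = true at h
  revert h
  generalize En i = x
  generalize En (i + 1) = y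
  generalize En (i + 2) = z
  obtain ⟨u0, q0, A0⟩ := x
  obtain ⟨u1, q1, A1⟩ := y
  intro h
  rw [f0, Bool.and_eq_true] at h
  exact ⟨Nat.le_of_ble_eq_true h.1, Nat.le_of_ble_eq_true h.2⟩

theorem En_f1 (i : ℕ) (h1 : 1 ≤ i) (hi : i ≤ 850) :
    ((En (i + 1)).2.1 ≤ (En i).2.1 + (En i).2.2 ∧ (En i).2.1 ≤ (En (i + 1)).2.1 + (En i).2.2 ∧
    (En (i + 1)).2.1 ≤ (En i).2.1 + (En (i + 1)).2.2 ∧
    (En i).2.1 ≤ (En (i + 1)).2.1 + (En (i + 1)).2.2) ∧
    536870912 * (En (i + 1)).1 + 2 * (En i).1 + 10 * (En i).2.1 ≤ 536870912 * (En i).1 ∧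
    536870912 * (En (i + 1)).1 + 2 * (En i).1 + 10 * (En (i + 1)).2.1 ≤ 536870912 * (En i).1 := by
  obtain ⟨j, rfl⟩ : ∃ j, i = 1 + j := ⟨i - 1, by omega⟩
  have h := ckN_sound f1 _ ok_f1 j (by
    rw [List.length_append, List.length_drop, tab_len]; simp; omega)
  rw [getD_pad, getD_pad, getD_pad, getD_drop', getD_drop', getD_drop'] at h
  change f1 (En (1 + j)) (En (1 + j + 1)) (En (1 + (j + 2))) = true at h
  revert h
  generalize En (1 + j) = x
  generalize En (1 + j + 1) = y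
  generalize En (1 + (j + 2)) = z
  obtain ⟨u0, q0, A0⟩ := x
  obtain ⟨u1, q1, A1⟩ := y
  intro h
  rw [f1] at h
  simp only [Bool.and_eq_true] at h
  obtain ⟨⟨⟨e1, e2⟩, e3, e4⟩, e5, e6⟩ := h
  exact ⟨⟨Nat.le_of_ble_eq_true e1, Nat.le_of_ble_eq_true e2, Nat.le_of_ble_eq_true e3,
    Nat.le_of_ble_eq_true e4⟩, Nat.le_of_ble_eq_true e5, Nat.le_of_ble_eq_true e6⟩

theorem En_f2 (i : ℕ) (h1 : 1 ≤ i) (hi : i + 2 ≤ 850) :
    536870912 * (En (i + 2)).1 + 2 * (En i).1 + 10 * (En i).2.1 ≤ 536870912 * (En (i + 1)).1 ∧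
    536870912 * (En (i + 2)).1 + 2 * (En i).1 + 10 * (En (i + 1)).2.1 ≤
      536870912 * (En (i + 1)).1 := by
  obtain ⟨j, rfl⟩ : ∃ j, i = 1 + j := ⟨i - 1, by omega⟩
  have h := ckN_sound f2 _ ok_f2 j (by rw [List.length_drop, tab_len]; omega)
  rw [getD_drop', getD_drop', getD_drop'] at h
  change f2 (En (1 + j)) (En (1 + j + 1)) (En (1 + j + 2)) = true at h
  revert h
  generalize En (1 + j) = x
  generalize En (1 + j + 1) = y
  generalize En (1 + j + 2) = z
  obtain ⟨u0, q0, A0⟩ := x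
  obtain ⟨u1, q1, A1⟩ := y
  obtain ⟨u2, q2, A2⟩ := z
  intro h
  rw [f2, Bool.and_eq_true] at h
  exact ⟨Nat.le_of_ble_eq_true h.1, Nat.le_of_ble_eq_true h.2⟩

theorem En_f3 (i : ℕ) (h1 : 220 ≤ i) : (En i).1 = (En i).2.1 := by
  rcases Nat.lt_or_ge 850 i with hi | hi
  · rw [En_big i hi]
    rfl
  · obtain ⟨j, rfl⟩ : ∃ j, i = 220 + j := ⟨i - 220, by omega⟩
    have h := ckN_sound f3 _ ok_f3 j (by
      rw [List.length_append, List.length_drop, tab_len]; simp; omega)
    rw [getD_pad, getD_pad, getD_pad, getD_drop', getD_drop', getD_drop'] at h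
    change f3 (En (220 + j)) _ _ = true at h
    revert h
    generalize En (220 + j) = x
    obtain ⟨u0, q0, A0⟩ := x
    intro h
    rw [f3] at h
    exact Nat.eq_of_beq_eq_true h

theorem En_pair (i j : ℕ) (hi : 1 ≤ i) (hij : i ≤ j) (h : i + j ≤ 850) :
    PairI (En i) (En j) (En (i + j)) := by
  have h1 := ckAll_sound _ _ ok_all (i - 1) (j - i) (by
    rw [List.length_drop, tab_len]; omega)
  rw [getD_drop', getD_drop', getD_drop'] at h1
  rw [show 1 + (i - 1) = i by omega, show 1 + (i - 1 + (j - i)) = j by omega,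
    show 2 + (2 * (i - 1) + (j - i)) = i + j by omega] at h1
  exact h1

theorem aT_pair (i j : ℕ) (hi : 1 ≤ i) (hij : i ≤ j) (h : i + j ≤ 850) :
    aT (i + j) + AT i * AT j / 8 ≤ aT i * aT j - qT i * qT j / 2 := by
  have h1 := En_pair i j hi hij h
  unfold PairI at h1
  have h2 : (2147483648 : ℝ) * (En (i + j)).1 + (En i).2.2 * (En j).2.2 +
      4 * ((En i).2.1 * (En j).2.1) ≤ 8 * ((En i).1 * (En j).1) := by exact_mod_cast h1
  unfold aT qT AT
  have h3 : ((En i).1 : ℝ) / 268435456 * ((En j).1 / 268435456) -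
      (En i).2.1 / 268435456 * ((En j).2.1 / 268435456) / 2 -
      ((En (i + j)).1 / 268435456 + (En i).2.2 / 268435456 * ((En j).2.2 / 268435456) / 8) =
      (8 * ((En i).1 * (En j).1) - (2147483648 * (En (i + j)).1 + (En i).2.2 * (En j).2.2 +
      4 * ((En i).2.1 * (En j).2.1))) / (8 * 268435456 * 268435456) := by
    ring
  have h4 : 0 ≤ ((8 : ℝ) * ((En i).1 * (En j).1) - (2147483648 * (En (i + j)).1 +
      (En i).2.2 * (En j).2.2 + 4 * ((En i).2.1 * (En j).2.1))) / (8 * 268435456 * 268435456) :=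
    div_nonneg (by linarith) (by norm_num)
  linarith

theorem a1_val : aT 1 = 268435455 / 268435456 := by
  unfold aT En
  rw [tab_1.1]
  norm_num

theorem q1_val : qT 1 = 9 / 268435456 := by
  unfold qT En
  rw [tab_1.2]
  norm_num

theorem a2_val : aT 2 = 268435452 / 268435456 := by
  unfold aT En
  rw [tab_2]
  norm_num

theorem pl_nat (b : ℕ → ℝ) (l d : ℕ) (hd : 0 < d) :
    pl b ((l : ℝ) / d) = ((d - (l % d : ℕ) : ℝ) * b (l / d) + (l % d : ℕ) * b (l / d + 1)) / d := by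
  have hd' : (0 : ℝ) < d := by exact_mod_cast hd
  have h1 : ((l / d : ℕ) : ℝ) * d + ((l % d : ℕ) : ℝ) = l := by
    exact_mod_cast Nat.div_add_mod' l d
  have h2 : ((l % d : ℕ) : ℝ) < d := by exact_mod_cast Nat.mod_lt l hd
  have h3 : (0 : ℝ) ≤ ((l % d : ℕ) : ℝ) := Nat.cast_nonneg _
  rw [pl_eq b (l / d) ((l : ℝ) / d) (by rw [le_div_iff₀ hd']; linarith)
    (by rw [div_le_iff₀ hd']; nlinarith)]
  have h4 : (l : ℝ) / d - ((l / d : ℕ) : ℝ) = ((l % d : ℕ) : ℝ) / d := by
    field_simp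
    linarith
  rw [h4]
  field_simp
  ring

theorem comp_nat (l : ℕ) : pl (fun i => aT i - qT i) ((l : ℝ) / 27) ≤ pl aT ((l : ℝ) / 7) := by
  have e1 := pl_nat (fun i => aT i - qT i) l 27 (by norm_num)
  have e2 := pl_nat aT l 7 (by norm_num)
  push_cast at e1 e2
  rw [e1, e2]
  have hnn : ∀ i, 0 ≤ aT i := fun i => by unfold aT; positivity
  have m7 : ((l % 7 : ℕ) : ℝ) ≤ 7 := by exact_mod_cast (Nat.mod_lt l (by norm_num)).le
  rcases Nat.lt_or_ge l 5950 with hl | hl
  · have h := walk_sound (tab ++ [de, de]) 5950 0 R27 S7 _ _ rfl rfl rfl rfl ok_walk l hl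
    rw [Nat.zero_add] at h
    unfold CompI at h
    rw [getD_pad, getD_pad, getD_pad, getD_pad] at h
    change 7 * ((27 - l % 27) * (En (l / 27)).1 + (l % 27) * (En (l / 27 + 1)).1) ≤
      27 * ((7 - l % 7) * (En (l / 7)).1 + (l % 7) * (En (l / 7 + 1)).1) +
      7 * ((27 - l % 27) * (En (l / 27)).2.1 + (l % 27) * (En (l / 27 + 1)).2.1) at h
    have c27 : ((27 - l % 27 : ℕ) : ℝ) = 27 - ((l % 27 : ℕ) : ℝ) := by
      rw [Nat.cast_sub (Nat.mod_lt l (by norm_num)).le]
      norm_num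
    have c7 : ((7 - l % 7 : ℕ) : ℝ) = 7 - ((l % 7 : ℕ) : ℝ) := by
      rw [Nat.cast_sub (Nat.mod_lt l (by norm_num)).le]
      norm_num
    have h' : (7 : ℝ) * (((27 - l % 27 : ℕ) : ℝ) * (En (l / 27)).1 +
        ((l % 27 : ℕ) : ℝ) * (En (l / 27 + 1)).1) ≤
      27 * (((7 - l % 7 : ℕ) : ℝ) * (En (l / 7)).1 + ((l % 7 : ℕ) : ℝ) * (En (l / 7 + 1)).1) +
      7 * (((27 - l % 27 : ℕ) : ℝ) * (En (l / 27)).2.1 +
        ((l % 27 : ℕ) : ℝ) * (En (l / 27 + 1)).2.1) := by exact_mod_cast h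
    rw [c27, c7] at h'
    unfold aT qT
    set r : ℝ := ((l % 27 : ℕ) : ℝ)
    set s : ℝ := ((l % 7 : ℕ) : ℝ)
    have key : ((7 - s) * (((En (l / 7)).1 : ℝ) / 268435456) +
        s * (((En (l / 7 + 1)).1 : ℝ) / 268435456)) / 7 -
        ((27 - r) * (((En (l / 27)).1 : ℝ) / 268435456 - (En (l / 27)).2.1 / 268435456) +
        r * (((En (l / 27 + 1)).1 : ℝ) / 268435456 - (En (l / 27 + 1)).2.1 / 268435456)) / 27 =
        (27 * ((7 - s) * (En (l / 7)).1 + s * (En (l / 7 + 1)).1) +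
          7 * ((27 - r) * (En (l / 27)).2.1 + r * (En (l / 27 + 1)).2.1) -
          7 * ((27 - r) * (En (l / 27)).1 + r * (En (l / 27 + 1)).1)) /
          (189 * 268435456) := by ring
    have key2 : 0 ≤ (27 * ((7 - s) * ((En (l / 7)).1 : ℝ) + s * (En (l / 7 + 1)).1) +
          7 * ((27 - r) * (En (l / 27)).2.1 + r * (En (l / 27 + 1)).2.1) -
          7 * ((27 - r) * (En (l / 27)).1 + r * (En (l / 27 + 1)).1)) /
          (189 * 268435456) := div_nonneg (by linarith) (by norm_num)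
    linarith
  · have z1 : aT (l / 27) - qT (l / 27) = 0 := by
      unfold aT qT
      rw [En_f3 (l / 27) (by omega)]
      ring
    have z2 : aT (l / 27 + 1) - qT (l / 27 + 1) = 0 := by
      unfold aT qT
      rw [En_f3 (l / 27 + 1) (by omega)]
      ring
    rw [z1, z2]
    have := hnn (l / 7)
    have := hnn (l / 7 + 1)
    have h7 : 0 ≤ 7 - ((l % 7 : ℕ) : ℝ) := by linarith
    have h7' : 0 ≤ ((l % 7 : ℕ) : ℝ) := Nat.cast_nonneg _
    have : 0 ≤ ((7 - ((l % 7 : ℕ) : ℝ)) * aT (l / 7) + ((l % 7 : ℕ) : ℝ) * aT (l / 7 + 1)) / 7 := by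
      positivity
    simpa using this

theorem theTab : Tab 850 aT qT AT := by
  have hmono : ∀ i, aT (i + 1) ≤ aT i := by
    intro i
    unfold aT
    rcases Nat.lt_or_ge 850 i with hi | hi
    · rw [En_big i hi, En_big (i + 1) (by omega)]
    · have h := (En_f0 i hi).1
      have h' : ((En (i + 1)).1 : ℝ) ≤ (En i).1 := by exact_mod_cast h
      gcongr
  refine ⟨by norm_num, ?_, ?_, hmono, ?_, ?_, ?_, ?_, ?_, ?_, ?_, comp_nat, ?_, ?_, ?_, ?_, ?_, ?_⟩
  · unfold aT En
    rw [tab_0]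
    norm_num
  · unfold qT En
    rw [tab_0]
    norm_num
  · intro i hi
    unfold aT
    rcases hi.lt_or_eq with h | h
    · rw [En_big i h]
      simp [de]
    · subst h
      unfold En
      rw [tab_850]
      norm_num
  · intro i; unfold qT; positivity
  · intro i
    unfold qT aT
    rcases Nat.lt_or_ge 850 i with hi | hi
    · rw [En_big i hi]
      simp [de]
    · have h := (En_f0 i hi).2
      have h' : ((En i).2.1 : ℝ) ≤ (En i).1 := by exact_mod_cast h
      gcongr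
  · intro i; unfold AT; positivity
  · intro i j hi hj hij
    rcases Nat.le_total i j with h | h
    · exact aT_pair i j hi h hij
    · have := aT_pair j i hj h (by omega)
      rw [add_comm j i, mul_comm (AT j), mul_comm (aT j), mul_comm (qT j)] at this
      exact this
  · intro i hi
    unfold qT AT
    rcases Nat.lt_or_ge 850 i with hi' | hi'
    · rw [En_big i hi', En_big (i + 1) (by omega)]
      simp [de]
    · obtain ⟨⟨e1, e2, -, -⟩, -, -⟩ := En_f1 i hi hi'
      have e1' : ((En (i + 1)).2.1 : ℝ) ≤ (En i).2.1 + (En i).2.2 := by exact_mod_cast e1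
      have e2' : ((En i).2.1 : ℝ) ≤ (En (i + 1)).2.1 + (En i).2.2 := by exact_mod_cast e2
      rw [abs_le]
      constructor <;> linarith
  · intro i hi
    unfold qT AT
    rcases Nat.lt_or_ge 850 i with hi' | hi'
    · rw [En_big i hi', En_big (i + 1) (by omega)]
      simp [de]
    · obtain ⟨⟨-, -, e1, e2⟩, -, -⟩ := En_f1 i hi hi'
      have e1' : ((En (i + 1)).2.1 : ℝ) ≤ (En i).2.1 + (En (i + 1)).2.2 := by exact_mod_cast e1
      have e2' : ((En i).2.1 : ℝ) ≤ (En (i + 1)).2.1 + (En (i + 1)).2.2 := by exact_mod_cast e2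
      rw [abs_le]
      constructor <;> linarith
  · rw [a1_val, q1_val]
    norm_num
  · rw [a1_val, q1_val, a2_val]
    norm_num
  · intro j hj hjN
    obtain ⟨-, e, -⟩ := En_f1 j hj (by omega)
    have e' : (536870912 : ℝ) * (En (j + 1)).1 + 2 * (En j).1 + 10 * (En j).2.1 ≤
        536870912 * (En j).1 := by exact_mod_cast e
    rw [a1_val, q1_val]
    unfold aT qT
    linarith
  · intro j hj hjN
    obtain ⟨-, -, e⟩ := En_f1 j hj (by omega)
    have e' : (536870912 : ℝ) * (En (j + 1)).1 + 2 * (En j).1 + 10 * (En (j + 1)).2.1 ≤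
        536870912 * (En j).1 := by exact_mod_cast e
    rw [a1_val, q1_val]
    unfold aT qT
    linarith
  · intro j hj hjN
    obtain ⟨e, -⟩ := En_f2 j hj hjN
    have e' : (536870912 : ℝ) * (En (j + 2)).1 + 2 * (En j).1 + 10 * (En j).2.1 ≤
        536870912 * (En (j + 1)).1 := by exact_mod_cast e
    rw [a1_val, q1_val]
    unfold aT qT
    linarith
  · intro j hj hjN
    obtain ⟨-, e⟩ := En_f2 j hj hjN
    have e' : (536870912 : ℝ) * (En (j + 2)).1 + 2 * (En j).1 + 10 * (En (j + 1)).2.1 ≤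
        536870912 * (En (j + 1)).1 := by exact_mod_cast e
    rw [a1_val, q1_val]
    unfold aT qT
    linarith

end Pool.Agent.Helper4.UB
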