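import Pool.Agent.Helper4.UB.Bound
import Pool.Agent.Helper4.UB.TabOK

/-!
# The upper bound `1.027 log₂ n + O(1)`
-/

set_option autoImplicit false

namespace Pool.Agent.Helper4.UB

open Pool.Agent.Helper2.OC

theorem upper_bound : ∃ K : ℝ, ∀ n : ℕ, 1 ≤ n →
    f n ≤ ENNReal.ofReal (1.027 * Real.logb 2 n + K) :=
  f_le_1027 (tab_cert theTab)

end Pool.Agent.Helper4.UB
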