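import Pool.Agent.Helper4.UB.Prob

/-!
# The law of the level of a component, from a scalar certificate
-/

set_option autoImplicit false

namespace Pool.Agent.Helper4.UB

open Pool.Agent.Helper2.OC

/-- A scalar certificate. -/
structure Cert (β M : ℝ) (u : ℝ → ℝ) : Prop where
  beta : 1 < β
  Mpos : 1 ≤ M
  zero : u 0 = 1
  anti : ∀ x y, 0 ≤ x → x ≤ y → u y ≤ u x
  nonneg : ∀ x, 0 ≤ x → 0 ≤ u x
  vanish : ∀ x, M ≤ x → u x = 0
  ineq : ∀ x y, 0 ≤ x → 0 ≤ y →
    u (x + y) ≤ u x * u y - 1 / 2 * ((u x - u (β * x)) * (u y - u (β * y)))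
  lin : ∀ x, 0 ≤ x → x ≤ 1 → 1 - x ≤ u x

/-- Monotonicity of the merge polynomial. -/
theorem mrg_poly_mono {a a' b b' x x' y y' : ℝ} (h1 : x ≤ a) (h2 : x' ≤ a') (h3 : y ≤ b)
    (h4 : y' ≤ b') (hb : 0 ≤ b') (hbb : b' ≤ b) (hx : 0 ≤ x') (hxx : x' ≤ x) :
    x * y - 1 / 2 * ((x - x') * (y - y')) ≤ a * b - 1 / 2 * ((a - a') * (b - b')) := by
  have e1 : 0 ≤ (a - x) * (b + b') := mul_nonneg (by linarith) (by linarith)
  have e2 : 0 ≤ (a' - x') * (b - b') := mul_nonneg (by linarith) (by linarith)
  have e3 : 0 ≤ (b - y) * (x + x') := mul_nonneg (by linarith) (by linarith)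
  have e4 : 0 ≤ (b' - y') * (x - x') := mul_nonneg (by linarith) (by linarith)
  nlinarith [e1, e2, e3, e4]

/-- argument of the profile -/
noncomputable def arg (β M : ℝ) (s k : ℕ) : ℝ := (s : ℝ) * M / β ^ k

/-- A component with a good law. -/
structure GoodC {n : ℕ} (β M : ℝ) (u : ℝ → ℝ) (c : Comp n) : Prop where
  dep : Dep c.S c.X
  flip : ∀ ω, c.S (nt ω) = fl true (c.S ω)
  pos : ∀ ω, 1 ≤ (c.S ω).1
  law : ∀ k, u (arg β M c.X.card k) ≤ FF c.S k

theorem arg_nonneg {β M : ℝ} {u : ℝ → ℝ} (C : Cert β M u) (s k : ℕ) : 0 ≤ arg β M s k := by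
  have := C.beta
  have := C.Mpos
  unfold arg
  positivity

theorem arg_succ {β M : ℝ} {u : ℝ → ℝ} (C : Cert β M u) (s k : ℕ) (hk : 1 ≤ k) :
    β * arg β M s k = arg β M s (k - 1) := by
  have h := C.beta
  obtain ⟨j, rfl⟩ : ∃ j, k = j + 1 := ⟨k - 1, by omega⟩
  unfold arg
  rw [Nat.add_sub_cancel, pow_succ]
  field_simp

theorem arg_add {β M : ℝ} (s s' k : ℕ) : arg β M (s + s') k = arg β M s k + arg β M s' k := by
  unfold arg
  push_cast
  ring

theorem u_arg_zero {β M : ℝ} {u : ℝ → ℝ} (C : Cert β M u) (s : ℕ) (hs : 1 ≤ s) :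
    u (arg β M s 0) = 0 := by
  apply C.vanish
  have h1 := C.Mpos
  have h2 : (1 : ℝ) ≤ s := by exact_mod_cast hs
  unfold arg
  rw [pow_zero, div_one]
  nlinarith

theorem u_arg_le {β M : ℝ} {u : ℝ → ℝ} (C : Cert β M u) {s s' : ℕ} (k : ℕ) (hs : s ≤ s') :
    u (arg β M s' k) ≤ u (arg β M s k) := by
  apply C.anti _ _ (arg_nonneg C s k)
  have h := C.beta
  have h1 := C.Mpos
  have h2 : (s : ℝ) ≤ s' := by exact_mod_cast hs
  unfold arg
  gcongr

theorem FF_zero_start {n : ℕ} (b : Bool) (k : ℕ) : FF (fun _ : Om n => ((0, b) : St)) k = 1 := by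
  unfold FF
  have : (fun _ : Om n => if ((0, b) : St).1 ≤ k then (1 : ℝ) else 0) = fun _ => 1 := by
    funext ω
    simp
  rw [this, ev_const]

/-- The law of a fold. -/
theorem fold_law {n : ℕ} {β M : ℝ} {u : ℝ → ℝ} (C : Cert β M u) (r : Om n → Bool)
    (E : Finset (Fin n)) (hr : Dep r E) (l : List (Comp n))
    (hE : ∀ c ∈ l, Disjoint E c.X) (hdisj : l.Pairwise (fun c c' => Disjoint c.X c'.X))
    (hgood : ∀ c ∈ l, GoodC β M u c) :
    Dep (foldS r l) (E ∪ unX l) ∧ ∀ k, u (arg β M (unX l).card k) ≤ FF (foldS r l) k := by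
  induction l with
  | nil =>
    refine ⟨?_, fun k => ?_⟩
    · intro ω ω' _; rfl
    · have h1 : foldS r ([] : List (Comp n)) = fun _ => (0, true) := by
        funext ω; rfl
      rw [h1, FF_zero_start]
      have h2 : arg β M (unX ([] : List (Comp n))).card k = 0 := by
        simp [unX, arg]
      rw [h2, C.zero]
  | cons c l ih =>
    rw [List.pairwise_cons] at hdisj
    obtain ⟨ih1, ih2⟩ := ih (fun c hc => hE c (List.mem_cons_of_mem _ hc)) hdisj.2
      (fun c hc => hgood c (List.mem_cons_of_mem _ hc))
    have hg := hgood c List.mem_cons_self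
    have hdis : Disjoint (E ∪ unX l) c.X := by
      rw [Finset.disjoint_union_left]
      refine ⟨hE c List.mem_cons_self, ?_⟩
      rw [Finset.disjoint_left]
      intro i hi hic
      rw [mem_unX] at hi
      obtain ⟨c', hc', hi'⟩ := hi
      exact Finset.disjoint_left.mp (hdisj.1 c' hc') hic hi'
    have hfold : foldS r (c :: l) = fun ω => mrg (r ω) (foldS r l ω) (c.S ω) := by
      funext ω; rfl
    refine ⟨?_, fun k => ?_⟩
    · intro ω ω' hw
      rw [hfold]
      simp only
      have e1 : r ω = r ω' := hr _ _ (fun i hi => hw i (by simp [hi]))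
      have e2 : foldS r l ω = foldS r l ω' := ih1 _ _ (fun i hi => hw i (by
        rw [Finset.mem_union] at hi ⊢
        rcases hi with hi | hi
        · exact Or.inl hi
        · exact Or.inr (by rw [unX, Finset.mem_union]; exact Or.inr hi)))
      have e3 : c.S ω = c.S ω' := hg.dep _ _ (fun i hi => hw i (by
        rw [Finset.mem_union]
        exact Or.inr (by rw [unX, Finset.mem_union]; exact Or.inl hi)))
      rw [e1, e2, e3]
    · have hcard : (unX (c :: l)).card = (unX l).card + c.X.card := by
        rw [unX, Finset.card_union_of_disjoint, add_comm]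
        exact (Finset.disjoint_union_left.mp hdis).2.symm
      rcases Nat.eq_zero_or_pos k with hk | hk
      · subst hk
        by_cases h0 : (unX (c :: l)).card = 0
        · -- impossible, but harmless: then the set of `c` is empty
          have hX : c.X.card = 0 := by omega
          have := hg.law 0
          have hl : FF c.S 0 = 0 := by
            unfold FF
            have : (fun ω : Om n => if (c.S ω).1 ≤ 0 then (1 : ℝ) else 0) = fun _ => 0 := by
              funext ω
              rw [if_neg]
              have := hg.pos ω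
              omega
            rw [this, ev_const]
          rw [hl, hX] at this
          have h2 : arg β M 0 0 = 0 := by simp [arg]
          rw [h2, C.zero] at this
          norm_num at this
        · rw [u_arg_zero C _ (by omega)]
          exact FF_nonneg _ _
      · rw [hfold, FF_mrg r hdis ih1 hg.dep hg.flip k hk, hcard, arg_add]
        refine (C.ineq _ _ (arg_nonneg C _ _) (arg_nonneg C _ _)).trans ?_
        rw [arg_succ C _ _ hk, arg_succ C _ _ hk]
        refine mrg_poly_mono (ih2 k) (ih2 (k - 1)) (hg.law k) (hg.law (k - 1)) (FF_nonneg _ _)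
          (FF_mono _ (Nat.sub_le _ _)) (C.nonneg _ (arg_nonneg C _ _)) ?_
        rw [← arg_succ C _ _ hk]
        refine C.anti _ _ (arg_nonneg C _ _) ?_
        have := arg_nonneg C (unX l).card k
        nlinarith [C.beta]

/-- The law of a new component. -/
theorem newS_law {n : ℕ} {β M : ℝ} {u : ℝ → ℝ} (C : Cert β M u) (g : Fin n → Bool)
    (v : Fin n) (l : List (Comp n))
    (hE : ∀ c ∈ l, v ∉ c.X) (hdisj : l.Pairwise (fun c c' => Disjoint c.X c'.X))
    (hgood : ∀ c ∈ l, GoodC β M u c) :
    GoodC β M u ⟨insert v (unX l), newS (rbit g v) l⟩ := by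
  have hr : Dep (rbit g v) {v} := by
    intro ω ω' hw
    unfold rbit
    rw [hw v (Finset.mem_singleton_self v)]
  obtain ⟨h1, h2⟩ := fold_law C (rbit g v) {v} hr l
    (fun c hc => by rw [Finset.disjoint_singleton_left]; exact hE c hc) hdisj hgood
  have hdepfold : Dep (foldS (rbit g v) l) (insert v (unX l)) := by
    rw [Finset.insert_eq]
    exact h1
  refine ⟨?_, ?_, fun ω => newS_pos _ _ _, ?_⟩
  · intro ω ω' hw
    show newS (rbit g v) l ω = newS (rbit g v) l ω'
    unfold newS
    rw [hdepfold ω ω' hw, hr ω ω' (fun i hi => hw i (by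
      rw [Finset.mem_singleton] at hi; rw [hi]; exact Finset.mem_insert_self _ _))]
  · intro ω
    show newS (rbit g v) l (nt ω) = fl true (newS (rbit g v) l ω)
    refine newS_fl ?_ ?_
    · unfold rbit nt
      cases ω v <;> cases g v <;> rfl
    · have : ∀ l : List (Comp n), (∀ c ∈ l, GoodC β M u c) →
          List.Forall₂ (RelFl true ω (nt ω)) l l := by
        intro l
        induction l with
        | nil => intro _; exact List.Forall₂.nil
        | cons c l ih =>
          intro h
          have hc := h c List.mem_cons_self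
          exact List.Forall₂.cons ⟨hc.flip ω, hc.pos ω⟩
            (ih (fun c' hc' => h c' (List.mem_cons_of_mem _ hc')))
      exact this l hgood
  · intro k
    show u (arg β M (insert v (unX l)).card k) ≤ FF (newS (rbit g v) l) k
    have hcard : 1 ≤ (insert v (unX l)).card :=
      Finset.card_pos.mpr ⟨v, Finset.mem_insert_self _ _⟩
    rcases Nat.eq_zero_or_pos k with hk | hk
    · subst hk
      rw [u_arg_zero C _ hcard]
      exact FF_nonneg _ _
    · by_cases hl : l = []
      · subst hl
        have e1 : FF (newS (rbit g v) ([] : List (Comp n))) k = 1 := by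
          unfold FF
          have : (fun ω : Om n => if (newS (rbit g v) ([] : List (Comp n)) ω).1 ≤ k
              then (1 : ℝ) else 0) = fun _ => 1 := by
            funext ω
            rw [if_pos]
            show (newS (rbit g v) ([] : List (Comp n)) ω).1 ≤ k
            unfold newS foldS
            simp only [if_true]
            exact hk
          rw [this, ev_const]
        rw [e1, ← C.zero]
        exact C.anti _ _ le_rfl (arg_nonneg C _ _)
      · have e1 : newS (rbit g v) l = foldS (rbit g v) l := by
          funext ω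
          unfold newS
          rw [if_neg]
          have := foldS_pos (rbit g v) l ω hl (fun c hc => (hgood c hc).pos ω)
          omega
        rw [e1]
        exact (u_arg_le C k (Finset.card_le_card (Finset.subset_insert _ _))).trans (h2 k)

theorem good_comps {n : ℕ} {β M : ℝ} {u : ℝ → ℝ} (C : Cert β M u) (G : SimpleGraph (Fin n))
    (g : Fin n → Bool) (t : ℕ) (ht : t ≤ n) : ∀ c ∈ comps G g t, GoodC β M u c := by
  induction t with
  | zero => intro c hc; simp [comps] at hc
  | succ t ih =>
    have ih := ih (by omega)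
    have htn : t < n := by omega
    set v : Fin n := ⟨t, htn⟩ with hv
    have hs : comps G g (t + 1) = step G g v (comps G g t) := comps_succ G g v
    rw [hs]
    have I := inv_comps G g t (by omega)
    intro c hc
    rw [step, List.mem_cons] at hc
    rcases hc with rfl | hc
    · refine newS_law C g v _ ?_ (I.disj.filter _) ?_
      · intro c hc hvc
        have := I.lt c (List.mem_filter.mp hc).1 v hvc
        rw [hv] at this
        exact lt_irrefl _ this
      · intro c hc
        exact ih c (List.mem_filter.mp hc).1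
    · exact ih c (List.mem_filter.mp hc).1

/-- The law of the final fold. -/
theorem final_law {n : ℕ} {β M : ℝ} {u : ℝ → ℝ} (C : Cert β M u) (G : SimpleGraph (Fin n))
    (g : Fin n → Bool) (k : ℕ) :
    u (arg β M n k) ≤ FF (foldS (fun _ => true) (comps G g n)) k := by
  have I := inv_comps G g n le_rfl
  have hr : Dep (fun _ : Om n => true) (∅ : Finset (Fin n)) := fun _ _ _ => rfl
  obtain ⟨_, h2⟩ := fold_law C (fun _ => true) ∅ hr (comps G g n)
    (fun c _ => Finset.disjoint_empty_left _) I.disj (good_comps C G g n le_rfl)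
  refine (u_arg_le C k ?_).trans (h2 k)
  have := Finset.card_le_univ (unX (comps G g n))
  rwa [Fintype.card_fin] at this

end Pool.Agent.Helper4.UB
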