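import Pool.Agent.Helper4.UB.Check

/-!
# The kernel checks of linear size
-/

set_option autoImplicit false
set_option maxRecDepth 100000

namespace Pool.Agent.Helper4.UB

theorem tab_len : tab.length = 851 := by decide +kernel

theorem ok_f0 : ckN f0 (tab ++ [de, de]) = true := by decide +kernel

theorem ok_f1 : ckN f1 (tab.drop 1 ++ [de, de]) = true := by decide +kernel

theorem ok_f2 : ckN f2 (tab.drop 1) = true := by decide +kernel

theorem ok_f3 : ckN f3 (tab.drop 220 ++ [de, de]) = true := by decide +kernel

theorem ok_walk : walk 5950 R27 S7 (tab ++ [de, de]) (tab ++ [de, de]) = true := by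
  decide +kernel

theorem tab_0 : tab.getD 0 de = (268435456, 0, 0) := by decide +kernel

theorem tab_1 : (tab.getD 1 de).1 = 268435455 ∧ (tab.getD 1 de).2.1 = 9 := by decide +kernel

theorem tab_2 : (tab.getD 2 de).1 = 268435452 := by decide +kernel

theorem tab_850 : (tab.getD 850 de).1 = 0 := by decide +kernel

end Pool.Agent.Helper4.UB
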