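import Pool.Agent.Helper4.UB.Law

/-!
# Piecewise linear certificates
-/

set_option autoImplicit false

namespace Pool.Agent.Helper4.UB

/-- Piecewise linear interpolation of a sequence. -/
noncomputable def pl (a : ℕ → ℝ) (x : ℝ) : ℝ := a ⌊x⌋₊ + (x - ⌊x⌋₊) * (a (⌊x⌋₊ + 1) - a ⌊x⌋₊)

theorem pl_eq (a : ℕ → ℝ) (i : ℕ) (x : ℝ) (h1 : (i : ℝ) ≤ x) (h2 : x ≤ i + 1) :
    pl a x = a i + (x - i) * (a (i + 1) - a i) := by
  rcases h2.lt_or_eq with h | h
  · have : ⌊x⌋₊ = i := by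
      rw [Nat.floor_eq_iff (le_trans (Nat.cast_nonneg _) h1)]
      exact ⟨h1, h⟩
    unfold pl
    rw [this]
  · subst h
    have : ⌊(i : ℝ) + 1⌋₊ = i + 1 := by
      have := Nat.floor_natCast (R := ℝ) (i + 1)
      push_cast at this
      exact this
    unfold pl
    rw [this]
    push_cast
    ring

theorem exists_cell (x : ℝ) (hx : 0 ≤ x) : ∃ i : ℕ, (i : ℝ) ≤ x ∧ x ≤ i + 1 :=
  ⟨⌊x⌋₊, Nat.floor_le hx, (Nat.lt_floor_add_one x).le⟩

theorem exists_cell_one (x : ℝ) (hx : 1 ≤ x) : ∃ i : ℕ, 1 ≤ i ∧ (i : ℝ) ≤ x ∧ x ≤ i + 1 := by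
  refine ⟨⌊x⌋₊, ?_, Nat.floor_le (by linarith), (Nat.lt_floor_add_one x).le⟩
  exact Nat.le_floor (by simpa using hx)

/-- The table conditions. `q i = a i - p i`. -/
structure Tab (N : ℕ) (a q A : ℕ → ℝ) : Prop where
  N1 : 3 ≤ N
  a0 : a 0 = 1
  q0 : q 0 = 0
  mono : ∀ i, a (i + 1) ≤ a i
  van : ∀ i, N ≤ i → a i = 0
  q_nonneg : ∀ i, 0 ≤ q i
  q_le : ∀ i, q i ≤ a i
  A_nonneg : ∀ i, 0 ≤ A i
  pair : ∀ i j, 1 ≤ i → 1 ≤ j → i + j ≤ N →
    a (i + j) + A i * A j / 8 ≤ a i * a j - q i * q j / 2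
  Aleft : ∀ i, 1 ≤ i → |q (i + 1) - q i| ≤ A i
  Aright : ∀ i, 1 ≤ i → |q (i + 1) - q i| ≤ A (i + 1)
  comp : ∀ l : ℕ, pl (fun i => a i - q i) ((l : ℝ) / 27) ≤ pl a ((l : ℝ) / 7)
  kap : (1 - (a 1 - q 1)) ^ 2 / 4 ≤ 1 - a 1
  w2 : 2 * (1 - a 1) + (1 - (a 1 - q 1)) ^ 2 / 2 ≤ 1 - a 2
  tb1 : ∀ j, 1 ≤ j → j + 1 ≤ N → (1 - a 1) * a j + (1 - (a 1 - q 1)) * q j / 2 ≤ a j - a (j + 1)
  tb2 : ∀ j, 1 ≤ j → j + 1 ≤ N →
    (1 - a 1) * a j + (1 - (a 1 - q 1)) * q (j + 1) / 2 ≤ a j - a (j + 1)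
  tb3 : ∀ j, 1 ≤ j → j + 2 ≤ N →
    (1 - a 1) * a j + (1 - (a 1 - q 1)) * q j / 2 ≤ a (j + 1) - a (j + 2)
  tb4 : ∀ j, 1 ≤ j → j + 2 ≤ N →
    (1 - a 1) * a j + (1 - (a 1 - q 1)) * q (j + 1) / 2 ≤ a (j + 1) - a (j + 2)

section

variable {N : ℕ} {a q A : ℕ → ℝ}

/-- the profile -/
noncomputable def prof (a q : ℕ → ℝ) (x : ℝ) : ℝ :=
  if x ≤ 1 then 1 - ((1 - a 1) - (1 - (a 1 - q 1)) ^ 2 / 4) * x - (1 - (a 1 - q 1)) ^ 2 / 4 * x ^ 2
  else pl a x

theorem a_nonneg (T : Tab N a q A) (i : ℕ) : 0 ≤ a i := (T.q_nonneg i).trans (T.q_le i)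

theorem a_anti (T : Tab N a q A) {i j : ℕ} (h : i ≤ j) : a j ≤ a i := by
  induction j with
  | zero =>
    have : i = 0 := by omega
    rw [this]
  | succ j ih =>
    rcases Nat.lt_or_ge j i with h1 | h1
    · have : i = j + 1 := by omega
      rw [this]
    · exact (T.mono j).trans (ih h1)

theorem pl_nonneg (T : Tab N a q A) (x : ℝ) (hx : 0 ≤ x) : 0 ≤ pl a x := by
  obtain ⟨i, h1, h2⟩ := exists_cell x hx
  rw [pl_eq a i x h1 h2]
  have e1 := a_nonneg T i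
  have e2 := a_nonneg T (i + 1)
  have : a i + (x - i) * (a (i + 1) - a i) = (1 - (x - i)) * a i + (x - i) * a (i + 1) := by ring
  rw [this]
  have h3 : 0 ≤ 1 - (x - i) := by linarith
  have h4 : 0 ≤ x - i := by linarith
  positivity

theorem pl_anti (T : Tab N a q A) (x y : ℝ) (hx : 0 ≤ x) (hxy : x ≤ y) : pl a y ≤ pl a x := by
  -- compare through the cells
  obtain ⟨i, h1, h2⟩ := exists_cell x hx
  obtain ⟨j, h3, h4⟩ := exists_cell y (hx.trans hxy)
  rw [pl_eq a i x h1 h2, pl_eq a j y h3 h4]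
  have mi := T.mono i
  have mj := T.mono j
  rcases lt_trichotomy i j with h | h | h
  · -- value at x ≥ a (i+1) ≥ a j ≥ value at y
    have e1 : a (i + 1) ≤ a i + (x - i) * (a (i + 1) - a i) := by nlinarith
    have e2 : a j + (y - j) * (a (j + 1) - a j) ≤ a j := by nlinarith
    have e3 : a j ≤ a (i + 1) := a_anti T h
    linarith
  · subst h
    nlinarith
  · have h5 : (j : ℝ) + 1 ≤ i := by exact_mod_cast h
    have h6 : y = x := by linarith
    have h7 : x = i := by linarith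
    have h8 : (i : ℝ) = j + 1 := by linarith
    have h9 : i = j + 1 := by exact_mod_cast h8
    subst h9
    rw [h6, h7]
    push_cast
    ring_nf
    exact le_rfl

theorem pl_van (T : Tab N a q A) (x : ℝ) (hx : (N : ℝ) ≤ x) : pl a x = 0 := by
  have h0 : (0 : ℝ) ≤ x := le_trans (Nat.cast_nonneg _) hx
  unfold pl
  have : N ≤ ⌊x⌋₊ := Nat.le_floor hx
  rw [T.van _ this, T.van _ (by omega)]
  ring

theorem W_nonneg (T : Tab N a q A) : 0 ≤ 1 - (a 1 - q 1) := by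
  have h1 := T.q_nonneg 1
  have h2 := a_anti T (show 0 ≤ 1 by omega)
  rw [T.a0] at h2
  linarith

theorem prof_one (a q : ℕ → ℝ) : prof a q 1 = a 1 := by
  unfold prof
  rw [if_pos le_rfl]
  ring

theorem prof_big (x : ℝ) (hx : 1 ≤ x) : prof a q x = pl a x := by
  rcases hx.lt_or_eq with h | h
  · unfold prof
    rw [if_neg (not_le.mpr h)]
  · subst h
    rw [prof_one, pl_eq a 1 1 (by norm_num) (by norm_num)]
    push_cast
    ring

theorem prof_small (x : ℝ) (hx : x ≤ 1) : prof a q x =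
    1 - ((1 - a 1) - (1 - (a 1 - q 1)) ^ 2 / 4) * x - (1 - (a 1 - q 1)) ^ 2 / 4 * x ^ 2 := by
  unfold prof
  rw [if_pos hx]

/-- The profile lies above the piecewise linear function. -/
theorem pl_le_prof (T : Tab N a q A) (x : ℝ) (hx : 0 ≤ x) : pl a x ≤ prof a q x := by
  rcases le_total x 1 with h | h
  · rw [prof_small x h, pl_eq a 0 x (by simpa using hx) (by simpa using h), T.a0]
    push_cast
    have h1 : 0 ≤ (1 - (a 1 - q 1)) ^ 2 / 4 := by positivity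
    have h2 : 0 ≤ x * (1 - x) := mul_nonneg hx (by linarith)
    nlinarith [mul_nonneg h1 h2]
  · rw [prof_big x h]

theorem prof_anti (T : Tab N a q A) (x y : ℝ) (hx : 0 ≤ x) (hxy : x ≤ y) :
    prof a q y ≤ prof a q x := by
  rcases le_total y 1 with h | h
  · rw [prof_small x (hxy.trans h), prof_small y h]
    have h1 := T.kap
    have h2 : 0 ≤ (1 - (a 1 - q 1)) ^ 2 / 4 := by positivity
    have h3 : 0 ≤ ((1 - a 1) - (1 - (a 1 - q 1)) ^ 2 / 4) * (y - x) :=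
      mul_nonneg (by linarith) (by linarith)
    have h4 : 0 ≤ (1 - (a 1 - q 1)) ^ 2 / 4 * ((y - x) * (y + x)) :=
      mul_nonneg h2 (mul_nonneg (by linarith) (by linarith))
    nlinarith
  · rw [prof_big y h]
    rcases le_total x 1 with h' | h'
    · refine (pl_anti T 1 y zero_le_one h).trans ?_
      have e : pl a 1 = prof a q 1 := (prof_big 1 le_rfl).symm
      rw [e, prof_small x h', prof_small 1 le_rfl]
      have h1 := T.kap
      have h2 : 0 ≤ (1 - (a 1 - q 1)) ^ 2 / 4 := by positivity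
      have h3 : 0 ≤ ((1 - a 1) - (1 - (a 1 - q 1)) ^ 2 / 4) * (1 - x) :=
        mul_nonneg (by linarith) (by linarith)
      have h4 : 0 ≤ (1 - (a 1 - q 1)) ^ 2 / 4 * ((1 - x) * (1 + x)) :=
        mul_nonneg h2 (mul_nonneg (by linarith) (by linarith))
      nlinarith
    · rw [prof_big x h']
      exact pl_anti T x y hx hxy

theorem prof_nonneg (T : Tab N a q A) (x : ℝ) (hx : 0 ≤ x) : 0 ≤ prof a q x :=
  (pl_nonneg T x hx).trans (pl_le_prof T x hx)

/-- convexity along a cell of the refined grid -/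
theorem pl_comb (b : ℕ → ℝ) (d l : ℕ) (hd : 0 < d) (θ : ℝ) (h0 : 0 ≤ θ) (h1 : θ ≤ 1) :
    pl b (((l : ℝ) + θ) / d) = (1 - θ) * pl b ((l : ℝ) / d) + θ * pl b (((l + 1 : ℕ) : ℝ) / d) := by
  have hd' : (0 : ℝ) < d := by exact_mod_cast hd
  set i := l / d with hi
  have e1 : (i : ℝ) * d ≤ l := by exact_mod_cast Nat.div_mul_le_self l d
  have e2 : (l : ℝ) + 1 ≤ (i + 1) * d := by
    have : l + 1 ≤ (i + 1) * d := by
      have := Nat.lt_div_mul_add hd (a := l)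
      rw [← hi] at this
      rw [Nat.add_mul, one_mul]
      omega
    exact_mod_cast this
  rw [pl_eq b i (((l : ℝ) + θ) / d) (by rw [le_div_iff₀ hd']; linarith)
      (by rw [div_le_iff₀ hd']; linarith),
    pl_eq b i ((l : ℝ) / d) (by rw [le_div_iff₀ hd']; linarith)
      (by rw [div_le_iff₀ hd']; linarith),
    pl_eq b i (((l + 1 : ℕ) : ℝ) / d) (by rw [le_div_iff₀ hd']; push_cast; linarith)
      (by rw [div_le_iff₀ hd']; push_cast; linarith)]
  push_cast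
  field_simp
  ring

/-- The lower function is below the scaled profile. -/
theorem pP_le (T : Tab N a q A) (x : ℝ) (hx : 0 ≤ x) :
    pl (fun i => a i - q i) x ≤ prof a q (27 / 7 * x) := by
  refine le_trans ?_ (pl_le_prof T _ (by positivity))
  set l := ⌊27 * x⌋₊ with hl
  have h27 : 0 ≤ 27 * x := by positivity
  have h1 : (l : ℝ) ≤ 27 * x := Nat.floor_le h27
  have h2 : 27 * x < l + 1 := Nat.lt_floor_add_one _
  set θ := 27 * x - l with hθ
  have e1 : x = ((l : ℝ) + θ) / (27 : ℕ) := by push_cast; rw [hθ]; ring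
  have e2 : 27 / 7 * x = ((l : ℝ) + θ) / (7 : ℕ) := by push_cast; rw [hθ]; ring
  rw [e2]
  nth_rewrite 1 [e1]
  rw [pl_comb _ 27 l (by norm_num) θ (by linarith) (by linarith),
    pl_comb _ 7 l (by norm_num) θ (by linarith) (by linarith)]
  have c1 := T.comp l
  have c2 := T.comp (l + 1)
  push_cast at c1 c2 ⊢
  have t1 : 0 ≤ 1 - θ := by linarith
  have t2 : 0 ≤ θ := by linarith
  have := mul_le_mul_of_nonneg_left c1 t1
  have := mul_le_mul_of_nonneg_left c2 t2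
  linarith

/-- The bilinear cell inequality. -/
theorem cell_ineq {u00 u1 u2 R00 R10 R01 R11 d e s t : ℝ}
    (h00 : u00 + e ≤ R00) (h10 : u1 + e ≤ R10) (h01 : u1 + e ≤ R01) (h11 : u2 + e ≤ R11 ∨ s + t ≤ 1)
    (hd : d = R00 - R10 - R01 + R11) (he : -d ≤ 4 * e) (he0 : 0 ≤ e)
    (hs : 0 ≤ s) (hs1 : s ≤ 1) (ht : 0 ≤ t) (ht1 : t ≤ 1) :
    (s + t ≤ 1 → u00 + (s + t) * (u1 - u00) ≤
      (1 - s) * (1 - t) * R00 + s * (1 - t) * R10 + (1 - s) * t * R01 + s * t * R11) ∧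
    (1 ≤ s + t → (u2 + e ≤ R11) → u1 + (s + t - 1) * (u2 - u1) ≤
      (1 - s) * (1 - t) * R00 + s * (1 - t) * R10 + (1 - s) * t * R01 + s * t * R11) := by
  constructor
  · intro hst
    have e1 : (1 - s) * (1 - t) * R00 + s * (1 - t) * R10 + (1 - s) * t * R01 + s * t * R11 =
        (1 - s - t) * R00 + s * R10 + t * R01 + s * t * d := by rw [hd]; ring
    rw [e1]
    have m1 : (1 - s - t) * (u00 + e) ≤ (1 - s - t) * R00 :=
      mul_le_mul_of_nonneg_left h00 (by linarith)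
    have m2 : s * (u1 + e) ≤ s * R10 := mul_le_mul_of_nonneg_left h10 hs
    have m3 : t * (u1 + e) ≤ t * R01 := mul_le_mul_of_nonneg_left h01 ht
    have m4 : s * t * (-d) ≤ s * t * (4 * e) := mul_le_mul_of_nonneg_left he (by positivity)
    have m5 : 4 * (s * t) ≤ 1 := by nlinarith [sq_nonneg (s - t)]
    have m6 : 4 * (s * t) * e ≤ 1 * e := mul_le_mul_of_nonneg_right m5 he0
    nlinarith
  · intro hst h11'
    have e1 : (1 - s) * (1 - t) * R00 + s * (1 - t) * R10 + (1 - s) * t * R01 + s * t * R11 =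
        (s + t - 1) * R11 + (1 - t) * R10 + (1 - s) * R01 + (1 - s) * (1 - t) * d := by rw [hd]; ring
    rw [e1]
    have m1 : (s + t - 1) * (u2 + e) ≤ (s + t - 1) * R11 :=
      mul_le_mul_of_nonneg_left h11' (by linarith)
    have m2 : (1 - t) * (u1 + e) ≤ (1 - t) * R10 := mul_le_mul_of_nonneg_left h10 (by linarith)
    have m3 : (1 - s) * (u1 + e) ≤ (1 - s) * R01 := mul_le_mul_of_nonneg_left h01 (by linarith)
    have h1s : 0 ≤ 1 - s := by linarith
    have h1t : 0 ≤ 1 - t := by linarith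
    have m4 : (1 - s) * (1 - t) * (-d) ≤ (1 - s) * (1 - t) * (4 * e) :=
      mul_le_mul_of_nonneg_left he (by positivity)
    have m5 : 4 * ((1 - s) * (1 - t)) ≤ 1 := by nlinarith [sq_nonneg (s - t)]
    have m6 : 4 * ((1 - s) * (1 - t)) * e ≤ 1 * e := mul_le_mul_of_nonneg_right m5 he0
    nlinarith

end

end Pool.Agent.Helper4.UB
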