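import Pool.Agent.Helper4.UB.Alg2

/-!
# The law of the levels
-/

set_option autoImplicit false

namespace Pool.Agent.Helper4.UB

open Pool.Agent.Helper2.OC

/-- expectation over the random bits -/
noncomputable def ev {n : ℕ} (f : Om n → ℝ) : ℝ := (∑ ω, f ω) / 2 ^ n

/-- `f` depends only on the bits in `A`. -/
def Dep {n : ℕ} {α : Type*} (f : Om n → α) (A : Finset (Fin n)) : Prop :=
  ∀ ω ω', (∀ i ∈ A, ω i = ω' i) → f ω = f ω'

theorem Dep.mono {n : ℕ} {α : Type*} {f : Om n → α} {A B : Finset (Fin n)} (h : Dep f A)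
    (hAB : A ⊆ B) : Dep f B := fun ω ω' hw => h ω ω' (fun i hi => hw i (hAB hi))

theorem Dep.comp {n : ℕ} {α γ : Type*} {f : Om n → α} {A : Finset (Fin n)} (h : Dep f A)
    (F : α → γ) : Dep (fun ω => F (f ω)) A := fun ω ω' hw => congrArg F (h ω ω' hw)

theorem card_Om (n : ℕ) : (Fintype.card (Om n) : ℝ) = 2 ^ n := by
  simp [Om]

theorem ev_add {n : ℕ} (f g : Om n → ℝ) : ev (fun ω => f ω + g ω) = ev f + ev g := by
  unfold ev
  rw [Finset.sum_add_distrib, add_div]

theorem ev_sub {n : ℕ} (f g : Om n → ℝ) : ev (fun ω => f ω - g ω) = ev f - ev g := by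
  unfold ev
  rw [Finset.sum_sub_distrib, sub_div]

theorem ev_const {n : ℕ} (a : ℝ) : ev (fun _ : Om n => a) = a := by
  unfold ev
  rw [Finset.sum_const, Finset.card_univ, nsmul_eq_mul, card_Om]
  field_simp

theorem ev_mono {n : ℕ} {f g : Om n → ℝ} (h : ∀ ω, f ω ≤ g ω) : ev f ≤ ev g := by
  unfold ev
  have := Finset.sum_le_sum (fun ω (_ : ω ∈ (Finset.univ : Finset (Om n))) => h ω)
  gcongr

theorem ev_nonneg {n : ℕ} {f : Om n → ℝ} (h : ∀ ω, 0 ≤ f ω) : 0 ≤ ev f := by
  unfold ev
  exact div_nonneg (Finset.sum_nonneg fun ω _ => h ω) (by positivity)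

/-- all bits changed -/
def nt {n : ℕ} (ω : Om n) : Om n := fun i => ! ω i

theorem nt_nt {n : ℕ} (ω : Om n) : nt (nt ω) = ω := by
  funext i
  simp [nt]

theorem ev_nt {n : ℕ} (f : Om n → ℝ) : ev (fun ω => f (nt ω)) = ev f := by
  unfold ev
  congr 1
  exact Equiv.sum_comp (⟨nt, nt, nt_nt, nt_nt⟩ : Om n ≃ Om n) f

/-- the swap map -/
def swp {n : ℕ} (A : Finset (Fin n)) (p : Om n × Om n) : Om n × Om n :=
  (fun i => if i ∈ A then p.1 i else p.2 i, fun i => if i ∈ A then p.2 i else p.1 i)

theorem swp_swp {n : ℕ} (A : Finset (Fin n)) (p : Om n × Om n) : swp A (swp A p) = p := by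
  unfold swp
  ext i <;> by_cases h : i ∈ A <;> simp [h]

/-- Independence. -/
theorem ev_mul {n : ℕ} {φ ψ : Om n → ℝ} {A B : Finset (Fin n)} (hAB : Disjoint A B)
    (hφ : Dep φ A) (hψ : Dep ψ B) : ev (fun ω => φ ω * ψ ω) = ev φ * ev ψ := by
  have h1 : (∑ ω, φ ω) * (∑ ω, ψ ω) = ∑ p : Om n × Om n, φ p.1 * ψ p.2 := by
    rw [Finset.sum_mul_sum, ← Finset.univ_product_univ, Finset.sum_product]
  have h2 : ∑ p : Om n × Om n, φ p.1 * ψ p.2 = ∑ p : Om n × Om n, φ p.1 * ψ p.1 := by
    rw [← Equiv.sum_comp (⟨swp A, swp A, swp_swp A, swp_swp A⟩ : Om n × Om n ≃ Om n × Om n)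
      (fun p => φ p.1 * ψ p.1)]
    refine Finset.sum_congr rfl fun p _ => ?_
    show φ p.1 * ψ p.2 = φ (swp A p).1 * ψ (swp A p).1
    congr 1
    · refine hφ _ _ fun i hi => ?_
      show p.1 i = if i ∈ A then p.1 i else p.2 i
      rw [if_pos hi]
    · refine hψ _ _ fun i hi => ?_
      show p.2 i = if i ∈ A then p.1 i else p.2 i
      rw [if_neg (fun h => Finset.disjoint_left.mp hAB h hi)]
  have h3 : ∑ p : Om n × Om n, φ p.1 * ψ p.1 = 2 ^ n * ∑ ω, φ ω * ψ ω := by
    rw [← Finset.univ_product_univ, Finset.sum_product, Finset.mul_sum]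
    refine Finset.sum_congr rfl fun ω _ => ?_
    show ∑ _y : Om n, φ ω * ψ ω = _
    rw [Finset.sum_const, Finset.card_univ, nsmul_eq_mul, card_Om]
  unfold ev
  rw [div_mul_div_comm, h1, h2, h3]
  field_simp

/-- distribution function of the level -/
noncomputable def FF {n : ℕ} (S : Om n → St) (k : ℕ) : ℝ :=
  ev (fun ω => if (S ω).1 ≤ k then 1 else 0)

theorem FF_nonneg {n : ℕ} (S : Om n → St) (k : ℕ) : 0 ≤ FF S k :=
  ev_nonneg fun ω => by split_ifs <;> norm_num

theorem FF_mono {n : ℕ} (S : Om n → St) {k k' : ℕ} (h : k ≤ k') : FF S k ≤ FF S k' := by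
  refine ev_mono fun ω => ?_
  by_cases h1 : (S ω).1 ≤ k
  · rw [if_pos h1, if_pos (h1.trans h)]
  · rw [if_neg h1]
    split_ifs <;> norm_num

theorem FF_mrg {n : ℕ} (r : Om n → Bool) {S S' : Om n → St} {A B : Finset (Fin n)}
    (hAB : Disjoint A B) (hS : Dep S A) (hS' : Dep S' B)
    (hfl : ∀ ω, S' (nt ω) = fl true (S' ω)) (k : ℕ) (hk : 1 ≤ k) :
    FF (fun ω => mrg (r ω) (S ω) (S' ω)) k =
      FF S k * FF S' k - 1 / 2 * ((FF S k - FF S (k - 1)) * (FF S' k - FF S' (k - 1))) := by
  set e : (Om n → St) → Bool → Om n → ℝ := fun S b ω => if S ω = (k, b) then 1 else 0 with he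
  have hdec : ∀ S : Om n → St, FF S k - FF S (k - 1) = ev (e S true) + ev (e S false) := by
    intro S
    unfold FF
    rw [← ev_sub, ← ev_add]
    congr 1
    funext ω
    rw [he]
    simp only
    obtain ⟨a, b⟩ := S ω
    simp only [Prod.mk.injEq]
    rcases lt_trichotomy a k with h | h | h
    · rw [if_pos (by omega), if_pos (by omega), if_neg (by omega), if_neg (by omega)]
      norm_num
    · subst h
      rw [if_pos le_rfl, if_neg (by omega)]
      cases b <;> simp
    · rw [if_neg (by omega), if_neg (by omega), if_neg (by omega), if_neg (by omega)]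
      norm_num
  have hsym : ev (e S' true) = ev (e S' false) := by
    rw [← ev_nt (e S' false)]
    congr 1
    funext ω
    rw [he]
    simp only
    rw [hfl]
    unfold fl
    obtain ⟨a, b⟩ := S' ω
    simp only [Prod.mk.injEq]
    cases b <;> simp
  have hpt : (fun ω => if (mrg (r ω) (S ω) (S' ω)).1 ≤ k then (1 : ℝ) else 0) =
      fun ω => (if (S ω).1 ≤ k then (1 : ℝ) else 0) * (if (S' ω).1 ≤ k then (1 : ℝ) else 0) -
        (e S true ω * e S' false ω + e S false ω * e S' true ω) := by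
    funext ω
    rw [he]
    simp only
    obtain ⟨a, b⟩ := S ω
    obtain ⟨a', b'⟩ := S' ω
    unfold mrg
    simp only [Prod.mk.injEq]
    by_cases h1 : a' < a
    · rw [if_pos h1]
      by_cases h2 : a ≤ k
      · rw [if_pos h2, if_pos (by show a' ≤ k; omega)]
        have : ¬ (a' = k) := by omega
        simp [this]
      · rw [if_neg h2]
        have : ¬ (a = k) := by omega
        simp [this]
    · rw [if_neg h1]
      by_cases h2 : a < a'
      · rw [if_pos h2]
        by_cases h3 : a' ≤ k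
        · rw [if_pos h3, if_pos (by show a ≤ k; omega)]
          have : ¬ (a = k) := by omega
          simp [this]
        · rw [if_neg h3]
          have : ¬ (a' = k) := by omega
          simp [this]
      · rw [if_neg h2]
        have h4 : a' = a := by omega
        subst h4
        by_cases hb : b = b'
        · subst hb
          rw [if_pos rfl]
          cases b <;> simp
        · rw [if_neg hb]
          rcases lt_trichotomy a' k with h | h | h
          · rw [if_pos (by show a' + 1 ≤ k; omega), if_pos h.le]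
            have : ¬ (a' = k) := by omega
            simp [this]
          · subst h
            rw [if_neg (by show ¬ (a' + 1 ≤ a'); omega), if_pos le_rfl]
            revert hb
            cases b <;> cases b' <;> simp
          · rw [if_neg (by show ¬ (a' + 1 ≤ k); omega), if_neg (by omega)]
            have : ¬ (a' = k) := by omega
            simp [this]
  have hI : ev (fun ω => (if (S ω).1 ≤ k then (1 : ℝ) else 0) *
      (if (S' ω).1 ≤ k then (1 : ℝ) else 0)) = FF S k * FF S' k :=
    ev_mul hAB (hS.comp (fun s => if s.1 ≤ k then (1 : ℝ) else 0))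
      (hS'.comp (fun s => if s.1 ≤ k then (1 : ℝ) else 0))
  have hE : ∀ b b', ev (fun ω => e S b ω * e S' b' ω) = ev (e S b) * ev (e S' b') := fun b b' =>
    ev_mul hAB (hS.comp (fun s => if s = (k, b) then (1 : ℝ) else 0))
      (hS'.comp (fun s => if s = (k, b') then (1 : ℝ) else 0))
  rw [FF, hpt, ev_sub, ev_add, hI, hE, hE, hdec S, hdec S', hsym]
  ring

end Pool.Agent.Helper4.UB
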